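import Pool.Agent.H19.OG.Bas
import Pool.Agent.H19.OG.Theory

/-!
# Row CUB: the cube of an ample class is positive
-/

open Filter Topology

namespace Pool.OG

variable {X : Data}

namespace Red

theorem aint (hP : Positivity X) {D : Fin X.n → ℤ} (h : X.Ample D) :
    re D ∈ interior (Nef X) :=
  (hP.kleiman D).1 h

theorem h0F (hC : Cohomology X) {D : Fin X.n → ℤ} (hD : X.Ample D) :
    (X.h 0 D : ℝ) = tri X.t (re D) (re D) (re D) / 6 + lin X.c2 (re D) / 12 := by
  have h := hC.rr D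
  rw [hC.kodaira _ hD 1 (by norm_num), hC.kodaira _ hD 2 (by norm_num),
    hC.kodaira _ hD 3 (by norm_num)] at h
  push_cast at h
  linarith

theorem mem_mul {S : ℕ → Finset (ℤ × (ℤ × ℤ))}
    (hadd : ∀ j k, 0 < j → 0 < k → ∀ s ∈ S j, ∀ s' ∈ S k, s + s' ∈ S (j + k)) {k : ℕ}
    (hk : 0 < k) {p q : ℤ × (ℤ × ℤ)} (hp : p ∈ S k) (hq : q ∈ S k) :
    ∀ l, 0 < l → ∀ n, n ≤ l → n • p + (l - n) • q ∈ S (l * k) := by
  intro l hl
  induction l with
  | zero => exact absurd hl (lt_irrefl _)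
  | succ l ih =>
    intro n hn
    rcases Nat.eq_zero_or_pos l with rfl | hl0
    · rcases (show n = 0 ∨ n = 1 by omega) with rfl | rfl
      · simpa using hq
      · simpa using hp
    · have hlk : 0 < l * k := Nat.mul_pos hl0 hk
      rcases (show n ≤ l ∨ n = l + 1 by omega) with h | rfl
      · have h1 := hadd _ _ hlk hk _ (ih hl0 n h) _ hq
        have e1 : n • p + (l - n) • q + q = n • p + (l + 1 - n) • q := by
          rw [show l + 1 - n = (l - n) + 1 by omega, succ_nsmul, add_assoc]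
        rw [e1] at h1
        rw [add_mul, one_mul]
        exact h1
      · have h1 := hadd _ _ hlk hk _ (ih hl0 l le_rfl) _ hp
        have e1 : l • p + (l - l) • q + p = (l + 1) • p + (l + 1 - (l + 1)) • q := by
          simp only [Nat.sub_self, zero_smul, add_zero]
          rw [succ_nsmul]
        rw [e1] at h1
        rw [add_mul, one_mul]
        exact h1

theorem cube_pos (hP : Positivity X) (hC : Cohomology X) {S : ℕ → Finset (ℤ × (ℤ × ℤ))}
    (H : Fin X.n → ℤ) (hH : X.Ample H)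
    (hcard : ∀ k : ℕ, 0 < k → (S k).card = X.h 0 ((k : ℤ) • H))
    (hadd : ∀ j k, 0 < j → 0 < k → ∀ s ∈ S j, ∀ s' ∈ S k, s + s' ∈ S (j + k))
    {k : ℕ} (hk : 0 < k) (g0 : (0, (0, 0)) ∈ S k) (g1 : (1, (0, 0)) ∈ S k)
    (g2 : (1, (1, 0)) ∈ S k) (g3 : (1, (0, 1)) ∈ S k) :
    0 < tri X.t (re H) (re H) (re H) := by
  by_contra hneg
  push Not at hneg
  set T := tri X.t (re H) (re H) (re H) with hT
  set c := lin X.c2 (re H) with hc
  have key : ∀ l : ℕ, 0 < l → ((l : ℝ) + 1) ^ 3 ≤ 3 * l * k * (c / 12) := by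
    intro l hl
    have hN : 0 < l * k + l * k + l * k := by positivity
    have hle : (l + 1) ^ 3 ≤ (S (l * k + l * k + l * k)).card := by
      have h1 : ((Finset.range (l + 1) ×ˢ (Finset.range (l + 1) ×ˢ Finset.range (l + 1)))).card ≤
          (S (l * k + l * k + l * k)).card := by
        refine Finset.card_le_card_of_injOn
          (fun z => (((z.1 : ℤ) + z.2.1 + z.2.2, ((z.2.1 : ℤ), (z.2.2 : ℤ))) : ℤ × (ℤ × ℤ)))
          ?_ ?_
        · intro z hz
          simp only [Finset.coe_product, Set.mem_prod, Finset.mem_coe, Finset.mem_range] at hz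
          obtain ⟨z1, z2, z3⟩ := hz
          have m1 := mem_mul hadd hk g1 g0 l hl z.1 (by omega)
          have m2 := mem_mul hadd hk g2 g0 l hl z.2.1 (by omega)
          have m3 := mem_mul hadd hk g3 g0 l hl z.2.2 (by omega)
          have hlk : 0 < l * k := Nat.mul_pos hl hk
          have m4 := hadd _ _ (by omega) hlk _ (hadd _ _ hlk hlk _ m1 _ m2) _ m3
          have e : z.1 • ((1, (0, 0)) : ℤ × (ℤ × ℤ)) + (l - z.1) • ((0, (0, 0)) : ℤ × (ℤ × ℤ)) +
              (z.2.1 • ((1, (1, 0)) : ℤ × (ℤ × ℤ)) +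
                (l - z.2.1) • ((0, (0, 0)) : ℤ × (ℤ × ℤ))) +
              (z.2.2 • ((1, (0, 1)) : ℤ × (ℤ × ℤ)) +
                (l - z.2.2) • ((0, (0, 0)) : ℤ × (ℤ × ℤ))) =
              (((z.1 : ℤ) + z.2.1 + z.2.2, ((z.2.1 : ℤ), (z.2.2 : ℤ))) : ℤ × (ℤ × ℤ)) := by
            ext <;> simp
          rw [e] at m4
          exact m4
        · rintro ⟨a, b, c⟩ _ ⟨a', b', c'⟩ _ h
          simp only [Prod.mk.injEq] at h
          obtain ⟨e1, e2, e3⟩ := h
          simp only [Prod.mk.injEq]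
          omega
      rw [Finset.card_product, Finset.card_product, Finset.card_range] at h1
      calc (l + 1) ^ 3 = (l + 1) * ((l + 1) * (l + 1)) := by ring
        _ ≤ _ := h1
    rw [hcard _ hN] at hle
    have hA : X.Ample (((l * k + l * k + l * k : ℕ) : ℤ) • H) := by
      rw [hP.kleiman, re_smul]
      exact int_smul (by exact_mod_cast hN) (aint hP hH)
    have h2 : (((l + 1) ^ 3 : ℕ) : ℝ) ≤ (X.h 0 (((l * k + l * k + l * k : ℕ) : ℤ) • H) : ℝ) := by
      exact_mod_cast hle
    rw [h0F hC hA, re_smul, tri_smul1, tri_smul2, tri_smul3, lin_smul] at h2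
    push_cast at h2
    rw [← hT, ← hc] at h2
    have hpos : (0 : ℝ) ≤ (l : ℝ) * k + l * k + l * k := by positivity
    have h3 : ((l : ℝ) * k + l * k + l * k) *
        (((l : ℝ) * k + l * k + l * k) * (((l : ℝ) * k + l * k + l * k) * T)) ≤ 0 :=
      mul_nonpos_of_nonneg_of_nonpos hpos (mul_nonpos_of_nonneg_of_nonpos hpos
        (mul_nonpos_of_nonneg_of_nonpos hpos hneg))
    nlinarith
  obtain ⟨l, hl⟩ := exists_nat_gt (max 1 (3 * k * (c / 12)))
  have hl1 : (1 : ℝ) < l := (le_max_left _ _).trans_lt hl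
  have hl2 : 3 * k * (c / 12) < l := (le_max_right _ _).trans_lt hl
  have hl0 : 0 < l := by
    have : (0 : ℝ) < l := by linarith
    exact_mod_cast this
  have h := key l hl0
  have h4 : 3 * (l : ℝ) * k * (c / 12) ≤ l * l := by nlinarith
  nlinarith [mul_pos (show (0 : ℝ) < l by linarith) (show (0 : ℝ) < l by linarith)]

end Red

/-- ROW CUB: positivity of the cube of an ample class, from the growth of `h^0 (k D)`. -/
theorem ample_cube_of (hC : Cohomology X) (hP : Positivity X) (hS : Sections X) (x : X.Pt)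
    (D : Fin X.n → ℤ) (hD : X.Ample D) : 0 < tri X.t (re D) (re D) (re D) := by
  obtain ⟨S, hcard, hadd, _, hgen⟩ := hS.val x
  obtain ⟨k, hk, g0, g1, g2, g3⟩ := hgen D hD
  refine Red.cube_pos hP hC (S := fun k => S ((k : ℤ) • D)) D hD (fun k _ => hcard _) ?_
    hk g0 g1 g2 g3
  intro j k _ _ s hs s' hs'
  have := hadd _ _ s hs s' hs'
  rw [← add_smul] at this
  exact_mod_cast this

end Pool.OG
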