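import Pool.Agent.H20.OG.Lat

/-!
# The semigroup of valuations: upper bound for the number of points in degree one

Let `S k`, `k ≥ 1`, be finite sets of integer points of three-space with
`S j + S k ⊆ S (j + k)`, generating `ℤ^3`, with `card (S k) = V k ^ 3 + o(k ^ 3)`.  If
`S 1` is contained in a cube of side `T`, then `card (S 1) ≤ V + 3 (T + 1) ^ 2`.
This is (a part of) the theorem of Khovanskii and Lazarsfeld-Mustata.
-/

open MeasureTheory Set Filter Topology Pointwise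

namespace Pool.Agent.H20.OG

/-- integer points of three-space -/
abbrev Z3 := ℤ × (ℤ × ℤ)

/-- the real point -/
def emb (s : Z3) : ℝ × (ℝ × ℝ) := ((s.1 : ℝ), ((s.2.1 : ℝ), (s.2.2 : ℝ)))

theorem emb_injective : Function.Injective emb := by
  rintro ⟨a, b, c⟩ ⟨a', b', c'⟩ h
  simp only [emb, Prod.mk.injEq, Int.cast_inj] at h
  simp only [Prod.mk.injEq]
  exact h

/-- the semigroup -/
def semi (S : ℕ → Finset Z3)
    (hadd : ∀ j k, 0 < j → 0 < k → ∀ s ∈ S j, ∀ s' ∈ S k, s + s' ∈ S (j + k)) :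
    AddSubmonoid (Z3 × ℕ) where
  carrier := {x | x = 0 ∨ (0 < x.2 ∧ x.1 ∈ S x.2)}
  zero_mem' := Or.inl rfl
  add_mem' := by
    rintro a b ha hb
    rcases ha with rfl | ⟨ha1, ha2⟩
    · rw [zero_add]; exact hb
    · rcases hb with rfl | ⟨hb1, hb2⟩
      · rw [add_zero]; exact Or.inr ⟨ha1, ha2⟩
      · exact Or.inr ⟨by rw [Prod.snd_add]; omega, hadd _ _ ha1 hb1 _ ha2 _ hb2⟩

theorem mem_semi {S : ℕ → Finset Z3}
    {hadd : ∀ j k, 0 < j → 0 < k → ∀ s ∈ S j, ∀ s' ∈ S k, s + s' ∈ S (j + k)} {x : Z3 × ℕ} :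
    x ∈ semi S hadd ↔ x = 0 ∨ (0 < x.2 ∧ x.1 ∈ S x.2) := Iff.rfl

/-- the group of differences -/
def grp (M : AddSubmonoid (Z3 × ℕ)) : AddSubgroup (Z3 × ℤ) where
  carrier := {x | ∃ a ∈ M, ∃ b ∈ M, x = (a.1 - b.1, (a.2 : ℤ) - b.2)}
  zero_mem' := ⟨0, M.zero_mem, 0, M.zero_mem, by simp; rfl⟩
  add_mem' := by
    rintro x y ⟨a, ha, b, hb, rfl⟩ ⟨a', ha', b', hb', rfl⟩
    refine ⟨a + a', M.add_mem ha ha', b + b', M.add_mem hb hb', ?_⟩
    ext <;> simp <;> ring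
  neg_mem' := by
    rintro x ⟨a, ha, b, hb, rfl⟩
    refine ⟨b, hb, a, ha, ?_⟩
    ext <;> simp

theorem grp_top {M : AddSubmonoid (Z3 × ℕ)} {s : Z3} (hs : (s, 1) ∈ M) {k : ℕ}
    (h0 : ((0, (0, 0)), k) ∈ M) (h1 : ((1, (0, 0)), k) ∈ M) (h2 : ((1, (1, 0)), k) ∈ M)
    (h3 : ((1, (0, 1)), k) ∈ M) (x : Z3 × ℤ) : x ∈ grp M := by
  have g1 : (((1, (0, 0)) : Z3), (0 : ℤ)) ∈ grp M :=
    ⟨_, h1, _, h0, by simp⟩
  have g2 : (((0, (1, 0)) : Z3), (0 : ℤ)) ∈ grp M :=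
    ⟨_, h2, _, h1, by simp⟩
  have g3 : (((0, (0, 1)) : Z3), (0 : ℤ)) ∈ grp M :=
    ⟨_, h3, _, h1, by simp⟩
  have g4 : (s, (1 : ℤ)) ∈ grp M :=
    ⟨_, hs, 0, M.zero_mem, by simp⟩
  have e : x = x.2 • (s, (1 : ℤ)) + (x.1.1 - x.2 * s.1) • (((1, (0, 0)) : Z3), (0 : ℤ)) +
      (x.1.2.1 - x.2 * s.2.1) • (((0, (1, 0)) : Z3), (0 : ℤ)) +
      (x.1.2.2 - x.2 * s.2.2) • (((0, (0, 1)) : Z3), (0 : ℤ)) := by
    ext <;> simp
  rw [e]
  exact (grp M).add_mem ((grp M).add_mem ((grp M).add_mem ((grp M).zsmul_mem g4 _)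
    ((grp M).zsmul_mem g1 _)) ((grp M).zsmul_mem g2 _)) ((grp M).zsmul_mem g3 _)

/-- An element of the semigroup absorbing a finite set of vectors. -/
theorem absorb {M : AddSubmonoid (Z3 × ℕ)} (hM : ∀ x : Z3 × ℤ, x ∈ grp M)
    (B : Finset (Z3 × ℤ)) :
    ∃ w ∈ M, ∀ x ∈ B, ∃ m ∈ M, m.1 = x.1 + w.1 ∧ (m.2 : ℤ) = x.2 + w.2 := by
  classical
  induction B using Finset.induction_on with
  | empty => exact ⟨0, M.zero_mem, by simp⟩
  | insert y B hy ih =>
    obtain ⟨w, hw, h⟩ := ih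
    obtain ⟨a, ha, b, hb, hab⟩ := hM y
    refine ⟨w + b, M.add_mem hw hb, fun x hx => ?_⟩
    rcases Finset.mem_insert.1 hx with rfl | hx
    · refine ⟨a + w, M.add_mem ha hw, ?_, ?_⟩
      · rw [hab]
        simp only [Prod.fst_add]
        abel
      · rw [hab]
        simp only [Prod.snd_add]
        push_cast
        ring
    · obtain ⟨m, hm, h1, h2⟩ := h x hx
      refine ⟨m + b, M.add_mem hm hb, ?_, ?_⟩
      · rw [Prod.fst_add, Prod.fst_add, h1]
        abel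
      · rw [Prod.snd_add, Prod.snd_add]
        push_cast
        rw [h2]
        ring

/-- Integer points of `n P`, `P` the convex hull of `S 1`, are in `S (n + c)` after translation
by a fixed vector. -/
theorem translate {S : ℕ → Finset Z3}
    (hadd : ∀ j k, 0 < j → 0 < k → ∀ s ∈ S j, ∀ s' ∈ S k, s + s' ∈ S (j + k))
    (hgrp : ∀ x : Z3 × ℤ, x ∈ grp (semi S hadd)) :
    ∃ (w : Z3) (c : ℕ), ∀ n : ℕ, 0 < n → ∀ q : Z3,
      (n : ℝ)⁻¹ • emb q ∈ convexHull ℝ (emb '' (S 1 : Set Z3)) → q + w ∈ S (n + c) := by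
  classical
  -- a bound for the coordinates
  set N : ℕ := (S 1).card with hN
  obtain ⟨R, hR0, hR⟩ : ∃ R : ℤ, 0 ≤ R ∧ ∀ s ∈ S 1, |s.1| ≤ R ∧ |s.2.1| ≤ R ∧ |s.2.2| ≤ R := by
    refine ⟨∑ s ∈ S 1, (|s.1| + |s.2.1| + |s.2.2|), Finset.sum_nonneg fun s _ => by positivity,
      fun s hs => ?_⟩
    have h := Finset.single_le_sum (f := fun s : Z3 => |s.1| + |s.2.1| + |s.2.2|)
      (fun s _ => by positivity) hs
    have h1 := abs_nonneg s.1
    have h2 := abs_nonneg s.2.1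
    have h3 := abs_nonneg s.2.2
    refine ⟨by linarith, by linarith, by linarith⟩
  let I : Finset ℤ := Finset.Icc (-(N * R)) (N * R)
  let B : Finset (Z3 × ℤ) := (I ×ˢ (I ×ˢ I)) ×ˢ Finset.Icc 0 (N : ℤ)
  obtain ⟨w, hw, habs⟩ := absorb hgrp B
  refine ⟨w.1, w.2, fun n hn q hq => ?_⟩
  have himg : emb '' (S 1 : Set Z3) = ((S 1).image emb : Finset (ℝ × (ℝ × ℝ))) := by
    rw [Finset.coe_image]
  rw [himg, Finset.mem_convexHull'] at hq
  obtain ⟨f, hf0, hf1, hfq⟩ := hq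
  rw [Finset.sum_image (fun a _ b _ h => emb_injective h)] at hf1 hfq
  have hn' : (0 : ℝ) < n := by exact_mod_cast hn
  let g : Z3 → ℝ := fun s => n * f (emb s)
  have hg0 : ∀ s ∈ S 1, 0 ≤ g s := fun s hs =>
    mul_nonneg hn'.le (hf0 _ (Finset.mem_image_of_mem _ hs))
  have hg1 : ∑ s ∈ S 1, g s = n := by
    simp only [g]
    rw [← Finset.mul_sum, hf1, mul_one]
  have hgq : ∑ s ∈ S 1, g s • emb s = emb q := by
    simp only [g]
    have : ∑ s ∈ S 1, ((n : ℝ) * f (emb s)) • emb s =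
        (n : ℝ) • ∑ s ∈ S 1, f (emb s) • emb s := by
      rw [Finset.smul_sum]
      exact Finset.sum_congr rfl fun s _ => by rw [mul_smul]
    rw [this, hfq, smul_smul, mul_inv_cancel₀ hn'.ne', one_smul]
  let u : Z3 → ℕ := fun s => ⌊g s⌋₊
  have hu1 : ∀ s ∈ S 1, (u s : ℝ) ≤ g s := fun s hs => Nat.floor_le (hg0 s hs)
  have hu2 : ∀ s ∈ S 1, g s ≤ u s + 1 := fun s _ => (Nat.lt_floor_add_one _).le
  let r : Z3 := q - ∑ s ∈ S 1, u s • s
  let j : ℤ := n - ∑ s ∈ S 1, (u s : ℤ)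
  -- coordinates
  have cast1 : (r.1 : ℝ) = ∑ s ∈ S 1, (g s - u s) * s.1 := by
    have h1 := congrArg Prod.fst hgq
    rw [Prod.fst_sum] at h1
    simp only [Prod.smul_fst, emb, smul_eq_mul] at h1
    simp only [r, Prod.fst_sub, Prod.fst_sum, Prod.smul_fst]
    simp only [nsmul_eq_mul]
    push_cast
    rw [← h1, ← Finset.sum_sub_distrib]
    exact Finset.sum_congr rfl fun s _ => by ring
  have cast2 : (r.2.1 : ℝ) = ∑ s ∈ S 1, (g s - u s) * s.2.1 := by
    have h1 := congrArg (fun z => z.2.1) hgq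
    simp only [Prod.snd_sum, Prod.fst_sum] at h1
    simp only [Prod.smul_snd, Prod.smul_fst, emb, smul_eq_mul] at h1
    simp only [r, Prod.snd_sub, Prod.snd_sum, Prod.fst_sub, Prod.fst_sum, Prod.smul_snd,
      Prod.smul_fst]
    simp only [nsmul_eq_mul]
    push_cast
    rw [← h1, ← Finset.sum_sub_distrib]
    exact Finset.sum_congr rfl fun s _ => by ring
  have cast3 : (r.2.2 : ℝ) = ∑ s ∈ S 1, (g s - u s) * s.2.2 := by
    have h1 := congrArg (fun z => z.2.2) hgq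
    simp only [Prod.snd_sum] at h1
    simp only [Prod.smul_snd, emb, smul_eq_mul] at h1
    simp only [r, Prod.snd_sub, Prod.snd_sum, Prod.smul_snd]
    simp only [nsmul_eq_mul]
    push_cast
    rw [← h1, ← Finset.sum_sub_distrib]
    exact Finset.sum_congr rfl fun s _ => by ring
  have cast4 : (j : ℝ) = ∑ s ∈ S 1, (g s - u s) := by
    simp only [j]
    push_cast
    rw [Finset.sum_sub_distrib, hg1]
  have bound : ∀ F : Z3 → ℤ, (∀ s ∈ S 1, |F s| ≤ R) → ∀ z : ℤ,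
      (z : ℝ) = ∑ s ∈ S 1, (g s - u s) * F s → z ∈ I := by
    intro F hF z hz
    have h1 : |(z : ℝ)| ≤ N * R := by
      rw [hz]
      refine (Finset.abs_sum_le_sum_abs _ _).trans ?_
      have : ∑ s ∈ S 1, |(g s - u s) * F s| ≤ ∑ s ∈ S 1, (R : ℝ) := by
        refine Finset.sum_le_sum fun s hs => ?_
        rw [abs_mul]
        have e1 : |g s - u s| ≤ 1 := by
          rw [abs_le]
          constructor <;> linarith [hu1 s hs, hu2 s hs]
        have e2 : |(F s : ℝ)| ≤ R := by exact_mod_cast hF s hs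
        calc |g s - u s| * |(F s : ℝ)| ≤ 1 * R := by
              apply mul_le_mul e1 e2 (abs_nonneg _) zero_le_one
          _ = R := one_mul _
      refine this.trans ?_
      rw [Finset.sum_const, nsmul_eq_mul]
    have h2 : |z| ≤ N * R := by exact_mod_cast h1
    exact Finset.mem_Icc.2 (abs_le.1 h2)
  have hB : (r, j) ∈ B := by
    refine Finset.mem_product.2 ⟨Finset.mem_product.2 ⟨?_, Finset.mem_product.2 ⟨?_, ?_⟩⟩, ?_⟩
    · exact bound (fun s => s.1) (fun s hs => (hR s hs).1) _ cast1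
    · exact bound (fun s => s.2.1) (fun s hs => (hR s hs).2.1) _ cast2
    · exact bound (fun s => s.2.2) (fun s hs => (hR s hs).2.2) _ cast3
    · have h1 : (0 : ℝ) ≤ j := by
        rw [cast4]
        exact Finset.sum_nonneg fun s hs => by linarith [hu1 s hs]
      have h2 : (j : ℝ) ≤ N := by
        rw [cast4]
        calc ∑ s ∈ S 1, (g s - u s) ≤ ∑ s ∈ S 1, (1 : ℝ) :=
              Finset.sum_le_sum fun s hs => by linarith [hu2 s hs]
          _ = N := by rw [Finset.sum_const, nsmul_eq_mul, mul_one]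
      exact Finset.mem_Icc.2 ⟨by exact_mod_cast h1, by exact_mod_cast h2⟩
  obtain ⟨m, hm, hm1, hm2⟩ := habs _ hB
  -- the sum
  have hsum : (∑ s ∈ S 1, u s • ((s, 1) : Z3 × ℕ)) ∈ semi S hadd := by
    refine AddSubmonoid.sum_mem _ fun s hs => AddSubmonoid.nsmul_mem _ ?_ _
    exact Or.inr ⟨Nat.one_pos, hs⟩
  have htot := (semi S hadd).add_mem hsum hm
  have e1 : ((∑ s ∈ S 1, u s • ((s, 1) : Z3 × ℕ)) + m).1 = q + w.1 := by
    rw [Prod.fst_add, hm1, Prod.fst_sum]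
    simp only [Prod.smul_fst, r]
    abel
  have e2 : ((∑ s ∈ S 1, u s • ((s, 1) : Z3 × ℕ)) + m).2 = n + w.2 := by
    have h3 : (((∑ s ∈ S 1, u s • ((s, 1) : Z3 × ℕ)) + m).2 : ℤ) = ((n + w.2 : ℕ) : ℤ) := by
      rw [Prod.snd_add, Prod.snd_sum]
      push_cast
      rw [hm2]
      simp only [j]
      push_cast
      simp only [Prod.smul_snd, smul_eq_mul, mul_one]
      push_cast
      ring
    exact_mod_cast h3
  rcases mem_semi.1 htot with h0 | ⟨_, h0⟩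
  · exfalso
    rw [h0] at e2
    simp at e2
    omega
  · rw [e1, e2] at h0
    exact h0

/-- coordinates -/
noncomputable def co : (Fin 3 → ℝ) ≃ᵐ ℝ × (ℝ × ℝ) :=
  (MeasurableEquiv.piFinSuccAbove (fun _ : Fin 3 => ℝ) 0).trans
    (MeasurableEquiv.prodCongr (MeasurableEquiv.refl ℝ) MeasurableEquiv.finTwoArrow)

theorem co_apply (x : Fin 3 → ℝ) : co x = (x 0, (x 1, x 2)) := by
  rfl

theorem co_mp : MeasurePreserving co volume volume := by
  have h1 := volume_preserving_piFinSuccAbove (fun _ : Fin 3 => ℝ) 0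
  have h2 : MeasurePreserving (Prod.map (id : ℝ → ℝ) (MeasurableEquiv.finTwoArrow : _ ≃ᵐ ℝ × ℝ))
      (volume.prod volume) (volume.prod volume) :=
    (MeasurePreserving.id volume).prod (volume_preserving_finTwoArrow ℝ)
  exact h2.comp h1

theorem volume_le {S : ℕ → Finset Z3}
    (hadd : ∀ j k, 0 < j → 0 < k → ∀ s ∈ S j, ∀ s' ∈ S k, s + s' ∈ S (j + k))
    (hgrp : ∀ x : Z3 × ℤ, x ∈ grp (semi S hadd)) {V : ℝ}
    (hV : Tendsto (fun k : ℕ => ((S k).card : ℝ) / (k : ℝ) ^ 3) atTop (𝓝 V)) :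
    (volume (convexHull ℝ (emb '' (S 1 : Set Z3)))).toReal ≤ V := by
  classical
  obtain ⟨w, c, hwc⟩ := translate hadd hgrp
  set P : Set (ℝ × (ℝ × ℝ)) := convexHull ℝ (emb '' (S 1 : Set Z3)) with hP
  have hfin : (emb '' (S 1 : Set Z3)).Finite := (S 1).finite_toSet.image _
  have hPc : IsCompact P := hfin.isCompact_convexHull ℝ
  have hPconv : Convex ℝ P := convex_convexHull ℝ _
  set P' : Set (Fin 3 → ℝ) := co ⁻¹' P with hP'
  have hvol : volume P' = volume P :=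
    co_mp.measure_preimage hPc.measurableSet.nullMeasurableSet
  have hP'meas : MeasurableSet P' := co.measurable hPc.measurableSet
  have hP'conv : Convex ℝ P' := by
    intro x hx y hy a b ha hb hab
    have := hPconv hx hy ha hb hab
    simpa only [hP', mem_preimage, co_apply, Pi.add_apply, Pi.smul_apply, smul_eq_mul,
      Prod.smul_mk, Prod.mk_add_mk] using this
  have hP'bdd : Bornology.IsBounded P' := by
    obtain ⟨R, hR⟩ := hPc.isBounded.subset_closedBall 0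
    refine (Metric.isBounded_closedBall (x := (0 : Fin 3 → ℝ)) (r := R)).subset fun x hx => ?_
    have h1 := hR (show co x ∈ P from hx)
    rw [mem_closedBall_zero_iff] at h1 ⊢
    rw [co_apply, Prod.norm_def, Prod.norm_def] at h1
    have hR0 : 0 ≤ R := (le_max_of_le_left (norm_nonneg _)).trans h1
    rw [pi_norm_le_iff_of_nonneg hR0]
    intro i
    have h2 := (le_max_left _ _).trans h1
    have h3 := (le_max_right _ _).trans h1
    have h4 := (le_max_left _ _).trans h3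
    have h5 := (le_max_right _ _).trans h3
    fin_cases i
    · exact h2
    · exact h4
    · exact h5
  have hlim := tendsto_card_div_pow_atTop_volume P' hP'bdd hP'meas
    (hP'conv.addHaar_frontier volume)
  have hcard : ∀ n : ℕ, 0 < n → (Nat.card ↑(P' ∩ (n : ℝ)⁻¹ •
      (Submodule.span ℤ (Set.range (Pi.basisFun ℝ (Fin 3))) : Set (Fin 3 → ℝ))) : ℝ) ≤
      (S (n + c)).card := by
    intro n hn
    have hn' : (0 : ℝ) < n := by exact_mod_cast hn
    have : NeZero n := ⟨hn.ne'⟩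
    have key : ∀ v ∈ P' ∩ (n : ℝ)⁻¹ •
        (Submodule.span ℤ (Set.range (Pi.basisFun ℝ (Fin 3))) : Set (Fin 3 → ℝ)),
        ∀ i, ((⌊(n : ℝ) * v i⌋ : ℤ) : ℝ) = n * v i := by
      intro v hv i
      have h1 := (BoxIntegral.unitPartition.mem_smul_span_iff (n := n)).1 hv.2 i
      obtain ⟨z, hz⟩ := h1
      rw [← hz]
      simp
    let φ : ↑(P' ∩ (n : ℝ)⁻¹ •
        (Submodule.span ℤ (Set.range (Pi.basisFun ℝ (Fin 3))) : Set (Fin 3 → ℝ))) →
        ↥(S (n + c)) := fun v =>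
      ⟨((⌊(n : ℝ) * v.1 0⌋, (⌊(n : ℝ) * v.1 1⌋, ⌊(n : ℝ) * v.1 2⌋)) : Z3) + w, by
        refine hwc n hn _ ?_
        have h1 := v.2.1
        have h2 : (n : ℝ)⁻¹ • emb (⌊(n : ℝ) * v.1 0⌋, (⌊(n : ℝ) * v.1 1⌋, ⌊(n : ℝ) * v.1 2⌋)) =
            co v.1 := by
          rw [co_apply]
          simp only [emb, Prod.smul_mk, smul_eq_mul]
          rw [key _ v.2 0, key _ v.2 1, key _ v.2 2]
          simp only [← mul_assoc, inv_mul_cancel₀ hn'.ne', one_mul]
        rw [h2]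
        exact h1⟩
    have hφ : Function.Injective φ := by
      intro v v' h
      have h1 : ((⌊(n : ℝ) * v.1 0⌋, (⌊(n : ℝ) * v.1 1⌋, ⌊(n : ℝ) * v.1 2⌋)) : Z3) =
          (⌊(n : ℝ) * v'.1 0⌋, (⌊(n : ℝ) * v'.1 1⌋, ⌊(n : ℝ) * v'.1 2⌋)) :=
        add_right_cancel (Subtype.ext_iff.1 h)
      simp only [Prod.mk.injEq] at h1
      obtain ⟨a0, a1, a2⟩ := h1
      apply Subtype.ext
      have hc : ∀ i, (n : ℝ) * v.1 i = n * v'.1 i → v.1 i = v'.1 i := fun i hi =>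
        mul_left_cancel₀ hn'.ne' hi
      funext i
      apply hc
      rw [← key _ v.2 i, ← key _ v'.2 i]
      fin_cases i
      · exact congrArg _ a0
      · exact congrArg _ a1
      · exact congrArg _ a2
    have h3 := Nat.card_le_card_of_injective φ hφ
    rw [Nat.card_eq_fintype_card (α := ↥(S (n + c))), Fintype.card_coe] at h3
    exact_mod_cast h3
  have hlim2 : Tendsto (fun n : ℕ => ((S (n + c)).card : ℝ) / (n : ℝ) ^ 3) atTop (𝓝 V) := by
    have h1 : Tendsto (fun n : ℕ => ((S (n + c)).card : ℝ) / ((n + c : ℕ) : ℝ) ^ 3) atTop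
        (𝓝 V) := hV.comp (tendsto_add_atTop_nat c)
    have h2 : Tendsto (fun n : ℕ => (((n + c : ℕ) : ℝ) / n) ^ 3) atTop (𝓝 (1 ^ 3)) := by
      apply Tendsto.pow
      have h3 : Tendsto (fun n : ℕ => 1 + (c : ℝ) / n) atTop (𝓝 (1 + 0)) :=
        tendsto_const_nhds.add (tendsto_const_div_atTop_nhds_zero_nat (c : ℝ))
      rw [add_zero] at h3
      refine h3.congr' ?_
      filter_upwards [eventually_gt_atTop 0] with n hn
      have hn' : (n : ℝ) ≠ 0 := by exact_mod_cast hn.ne'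
      push_cast
      field_simp
    have h4 := h1.mul h2
    rw [one_pow, mul_one] at h4
    refine h4.congr' ?_
    filter_upwards [eventually_gt_atTop 0] with n hn
    have hn' : (n : ℝ) ≠ 0 := by exact_mod_cast hn.ne'
    have hn2 : ((n + c : ℕ) : ℝ) ≠ 0 := by exact_mod_cast (by omega : n + c ≠ 0)
    field_simp
  have hfinal : volume.real P' ≤ V := by
    refine le_of_tendsto_of_tendsto hlim hlim2 ?_
    filter_upwards [eventually_gt_atTop 0] with n hn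
    have hn' : (0 : ℝ) < n := by exact_mod_cast hn
    rw [Fintype.card_fin]
    exact div_le_div_of_nonneg_right (hcard n hn) (by positivity)
  rw [Measure.real, hvol] at hfinal
  exact hfinal

/-- The theorem. -/
theorem points_le (S : ℕ → Finset Z3)
    (hadd : ∀ j k, 0 < j → 0 < k → ∀ s ∈ S j, ∀ s' ∈ S k, s + s' ∈ S (j + k))
    (hgen : ∃ k, 0 < k ∧ ((0, (0, 0)) : Z3) ∈ S k ∧ ((1, (0, 0)) : Z3) ∈ S k ∧
      ((1, (1, 0)) : Z3) ∈ S k ∧ ((1, (0, 1)) : Z3) ∈ S k)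
    {V : ℝ} (hV : Tendsto (fun k : ℕ => ((S k).card : ℝ) / (k : ℝ) ^ 3) atTop (𝓝 V))
    {T : ℝ} (hT : 0 ≤ T)
    (hbox : ∀ s ∈ S 1, 0 ≤ s.2.1 ∧ 0 ≤ s.2.2 ∧ s.2.1 + s.2.2 ≤ s.1 ∧ (s.1 : ℝ) ≤ T) :
    ((S 1).card : ℝ) ≤ V + 3 * (T + 1) ^ 2 := by
  classical
  rcases (S 1).eq_empty_or_nonempty with h0 | ⟨s, hs⟩
  · have hV0 : 0 ≤ V := ge_of_tendsto' hV fun k => by positivity
    rw [h0]
    simp only [Finset.card_empty, Nat.cast_zero]
    positivity
  obtain ⟨k, hk, g0, g1, g2, g3⟩ := hgen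
  have hgrp : ∀ x : Z3 × ℤ, x ∈ grp (semi S hadd) := fun x =>
    grp_top (s := s) (k := k) (Or.inr ⟨Nat.one_pos, hs⟩) (Or.inr ⟨hk, g0⟩) (Or.inr ⟨hk, g1⟩)
      (Or.inr ⟨hk, g2⟩) (Or.inr ⟨hk, g3⟩) x
  have hfin : (emb '' (S 1 : Set Z3)).Finite := (S 1).finite_toSet.image _
  have hbx : convexHull ℝ (emb '' (S 1 : Set Z3)) ⊆ Icc 0 T ×ˢ (Icc 0 T ×ˢ Icc 0 T) := by
    refine convexHull_min ?_
      ((convex_Icc 0 T).prod ((convex_Icc 0 T).prod (convex_Icc 0 T)))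
    rintro _ ⟨z, hz, rfl⟩
    obtain ⟨b1, b2, b3, b4⟩ := hbox z hz
    have b1' : (0 : ℝ) ≤ z.2.1 := by exact_mod_cast b1
    have b2' : (0 : ℝ) ≤ z.2.2 := by exact_mod_cast b2
    have b3' : (z.2.1 : ℝ) + z.2.2 ≤ z.1 := by exact_mod_cast b3
    refine ⟨⟨?_, ?_⟩, ⟨?_, ?_⟩, ⟨?_, ?_⟩⟩ <;> simp only [emb] <;> linarith
  have h1 := lattice_count (convex_convexHull ℝ (emb '' (S 1 : Set Z3)))
    (hfin.isCompact_convexHull ℝ) hT
    (fun p hp => ⟨(hbx hp).1, (hbx hp).2.1, (hbx hp).2.2⟩) (S 1)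
    (fun z hz => subset_convexHull ℝ _ ⟨z, hz, rfl⟩)
  have h2 := volume_le hadd hgrp hV
  linarith

end Pool.Agent.H20.OG
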