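import Pool.Agent.H19.OG.Bas
import Pool.Agent.H20.OG.Okb

/-!
# Row WID: the width of an ample class (Step 4)
-/

open Filter Topology

namespace Pool.OG

variable {X : Data}

theorem h0_mul (hP : Pos X) (hC : Coh X) {H : Fin X.n → ℤ} (hH : X.Ample H) {k : ℕ}
    (hk : 0 < k) : (X.h 0 ((k : ℤ) • H) : ℝ) =
      (k : ℝ) ^ 3 * (tri X.t (re H) (re H) (re H) / 6) + k * (lin X.c2 (re H) / 12) := by
  have hk' : (0 : ℝ) < k := by exact_mod_cast hk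
  have hA : X.Ample ((k : ℤ) • H) := by
    rw [hP.kleiman, re_smul]
    exact int_smul (by exact_mod_cast hk) (ample_int hP hH)
  have h := hC.rr ((k : ℤ) • H)
  rw [hC.kodaira _ hA 1 (by norm_num), hC.kodaira _ hA 2 (by norm_num),
    hC.kodaira _ hA 3 (by norm_num), re_smul, tri_smul1, tri_smul2, tri_smul3, lin_smul] at h
  push_cast at h
  linarith

theorem width_of_val (hP : Pos X) (hC : Coh X) (H : Fin X.n → ℤ) (hH : X.Ample H) (x : X.Pt)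
    (hval : ∃ S : ℕ → Finset (ℤ × (ℤ × ℤ)),
      (∀ k : ℕ, 0 < k → (S k).card = X.h 0 ((k : ℤ) • H)) ∧
      (∀ j k, 0 < j → 0 < k → ∀ s ∈ S j, ∀ s' ∈ S k, s + s' ∈ S (j + k)) ∧
      (∀ s ∈ S 1, 0 ≤ s.2.1 ∧ 0 ≤ s.2.2 ∧ s.2.1 + s.2.2 ≤ s.1 ∧
        ∃ D, Eff X D H ∧ mpt X D x = (s.1 : ℝ)) ∧
      ∃ k, 0 < k ∧ (0, (0, 0)) ∈ S k ∧ (1, (0, 0)) ∈ S k ∧ (1, (1, 0)) ∈ S k ∧
        (1, (0, 1)) ∈ S k)
    (μ : ℝ) (hμ : 0 ≤ μ) (h : ∀ D, Eff X D H → mpt X D x ≤ μ) :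
    lin X.c2 (re H) / 12 ≤ 3 * (μ + 1) ^ 2 := by
  obtain ⟨S, hcard, hadd, hbox, hgen⟩ := hval
  have hV : Tendsto (fun k : ℕ => ((S k).card : ℝ) / (k : ℝ) ^ 3) atTop
      (𝓝 (tri X.t (re H) (re H) (re H) / 6)) := by
    have h1 : Tendsto (fun k : ℕ => tri X.t (re H) (re H) (re H) / 6 +
        (lin X.c2 (re H) / 12) * (1 / (k : ℝ) * (1 / (k : ℝ)))) atTop
        (𝓝 (tri X.t (re H) (re H) (re H) / 6 + (lin X.c2 (re H) / 12) * (0 * 0))) :=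
      tendsto_const_nhds.add (tendsto_const_nhds.mul
        (tendsto_one_div_atTop_nhds_zero_nat.mul tendsto_one_div_atTop_nhds_zero_nat))
    rw [mul_zero, mul_zero, add_zero] at h1
    refine h1.congr' ?_
    filter_upwards [eventually_gt_atTop 0] with k hk
    have hk' : (k : ℝ) ≠ 0 := by exact_mod_cast hk.ne'
    rw [hcard k hk, h0_mul hP hC hH hk]
    field_simp
  have h2 := Pool.Agent.H20.OG.points_le S hadd hgen hV hμ fun s hs => by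
    obtain ⟨b1, b2, b3, D, hD, hDs⟩ := hbox s hs
    exact ⟨b1, b2, b3, hDs ▸ h D hD⟩
  have h3 := hcard 1 Nat.one_pos
  have h4 := h0_mul hP hC hH Nat.one_pos
  rw [h3, h4] at h2
  push_cast at h2
  linarith

/-- ROW WID (Step 4). -/
theorem width (hX : Facts X) (H : Fin X.n → ℤ) (hH : X.Ample H) (x : X.Pt) (μ : ℝ)
    (hμ : 0 ≤ μ) (h : ∀ D, Eff X D H → mpt X D x ≤ μ) :
    lin X.c2 (re H) / 12 ≤ 3 * (μ + 1) ^ 2 :=
  width_of_val hX.pos hX.coh H hH x (hX.wid.val H hH x) μ hμ h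

end Pool.OG
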