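import Mathlib

/-!
Row SLO: inside approximations of a badly approximable number at all scales.
-/

namespace Pool.OG

/-- For a badly approximable number there are approximations from inside at every scale. -/
theorem slow_aux (τ : ℝ) (hirr : Irrational τ) (c : ℝ) (hc : 0 < c)
    (hbad : ∀ a b : ℤ, 0 < a → c ≤ a * |a * τ - b|) (n : ℕ) (hn : 0 < n) :
    ∃ a b : ℤ, 0 < a ∧ (a : ℝ) ≤ n ∧ (b : ℝ) < a * τ ∧
      a * τ - b ≤ max 1 (1 / c) / n := by
  have hn' : (0 : ℝ) < n := by exact_mod_cast hn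
  obtain ⟨q, hq1, hq2⟩ := Real.exists_rat_abs_sub_le_and_den_le τ hn
  have hd : (0 : ℝ) < q.den := by exact_mod_cast q.den_pos
  have hdz : (0 : ℤ) < (q.den : ℤ) := by exact_mod_cast q.den_pos
  have hqe : (q : ℝ) = q.num / q.den := by
    have := Rat.cast_def (K := ℝ) q
    exact this
  have h1 : |(q.den : ℝ) * τ - q.num| ≤ 1 / ((n : ℝ) + 1) := by
    have h2 : (q.den : ℝ) * τ - q.num = q.den * (τ - q) := by
      rw [hqe]; field_simp
    rw [h2, abs_mul, abs_of_pos hd]
    calc (q.den : ℝ) * |τ - q| ≤ q.den * (1 / (((n : ℝ) + 1) * q.den)) :=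
          mul_le_mul_of_nonneg_left hq1 hd.le
      _ = 1 / ((n : ℝ) + 1) := by field_simp
  have hne : (q.den : ℝ) * τ - q.num ≠ 0 := by
    intro h
    apply hirr
    refine ⟨(q.num : ℚ) / q.den, ?_⟩
    push_cast
    rw [div_eq_iff hd.ne']
    linarith
  have hmax1 : (1 : ℝ) ≤ max 1 (1 / c) := le_max_left _ _
  have hmax2 : 1 / c ≤ max 1 (1 / c) := le_max_right _ _
  have hdn : (q.den : ℝ) ≤ n := by exact_mod_cast hq2
  rcases lt_or_gt_of_ne hne with hneg | hpos
  · -- the convergent is outside; its partner is inside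
    set δ : ℝ := q.num - q.den * τ with hδ
    have hδ0 : 0 < δ := by rw [hδ]; linarith
    have hδ1 : δ ≤ 1 / ((n : ℝ) + 1) := by
      have := abs_le.1 h1
      rw [hδ]; linarith [this.1]
    have hcop : IsCoprime q.num (q.den : ℤ) := by
      rw [Int.isCoprime_iff_gcd_eq_one]
      have := q.reduced
      simpa [Int.gcd, Nat.Coprime] using this
    obtain ⟨u, v, huv⟩ := hcop
    -- u * num + v * den = 1; reduce u modulo den into [1, den]
    obtain ⟨a, b, ha1, ha2, hab⟩ : ∃ a b : ℤ, 1 ≤ a ∧ a ≤ q.den ∧ a * q.num - b * q.den = 1 := by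
      refine ⟨(u - 1) % q.den + 1, -v - q.num * ((u - 1) / q.den), ?_, ?_, ?_⟩
      · have := Int.emod_nonneg (u - 1) hdz.ne'
        linarith
      · have := Int.emod_lt_of_pos (u - 1) hdz
        linarith
      · have h := Int.emod_add_mul_ediv (u - 1) q.den
        have h' : (u - 1) % (q.den : ℤ) = u - 1 - q.den * ((u - 1) / q.den) := by linarith
        rw [h']
        linear_combination huv
    have habr : (a : ℝ) * q.num - b * q.den = 1 := by exact_mod_cast hab
    have ha1' : (1 : ℝ) ≤ a := by exact_mod_cast ha1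
    have ha2' : (a : ℝ) ≤ q.den := by exact_mod_cast ha2
    have key : (q.den : ℝ) * (a * τ - b) + a * δ = 1 := by
      rw [hδ]; linear_combination habr
    have haδ : (a : ℝ) * δ < 1 := by
      have h3 : (a : ℝ) * δ ≤ n * (1 / ((n : ℝ) + 1)) :=
        mul_le_mul (ha2'.trans hdn) hδ1 hδ0.le hn'.le
      have h4 : (n : ℝ) * (1 / ((n : ℝ) + 1)) < 1 := by
        rw [mul_one_div, div_lt_one (by linarith)]
        linarith
      linarith
    have haδ0 : 0 < (a : ℝ) * δ := mul_pos (by linarith) hδ0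
    have hη : 0 < (a : ℝ) * τ - b := by
      by_contra h
      push Not at h
      have := mul_nonpos_of_nonneg_of_nonpos hd.le h
      linarith
    have hbd := hbad q.den q.num hdz
    have hbd' : c ≤ q.den * δ := by
      have h5 : |((q.den : ℤ) : ℝ) * τ - q.num| = δ := by
        push_cast
        rw [abs_of_neg hneg, hδ]; ring
      rw [h5] at hbd
      push_cast at hbd
      exact hbd
    have hden : c * n ≤ q.den := by
      have h6 : c ≤ q.den * (1 / ((n : ℝ) + 1)) :=
        hbd'.trans (mul_le_mul_of_nonneg_left hδ1 hd.le)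
      rw [mul_one_div, le_div_iff₀ (by linarith)] at h6
      nlinarith
    refine ⟨a, b, by linarith, ha2'.trans hdn, by linarith, ?_⟩
    rw [le_div_iff₀ hn']
    refine le_trans ?_ hmax2
    rw [le_div_iff₀ hc]
    calc ((a : ℝ) * τ - b) * n * c = (a * τ - b) * (c * n) := by ring
      _ ≤ (a * τ - b) * q.den := mul_le_mul_of_nonneg_left hden hη.le
      _ ≤ 1 := by nlinarith
  · refine ⟨q.den, q.num, hdz, by exact_mod_cast hq2, by push_cast; linarith, ?_⟩
    rw [le_div_iff₀ hn']
    refine le_trans ?_ hmax1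
    rw [abs_of_pos hpos, le_div_iff₀ (by linarith)] at h1
    push_cast
    nlinarith

/-- ROW SLO: the approximations of a badly approximable number from inside. -/
theorem slow (τ : ℝ) (hirr : Irrational τ) (c : ℝ) (hc : 0 < c)
    (hbad : ∀ a b : ℤ, 0 < a → c ≤ a * |a * τ - b|) :
    ∃ (a b : ℕ → ℤ) (lam K : ℝ), 1 ≤ lam ∧ 0 < K ∧ (∀ k, 0 < a k) ∧ (∀ k, b k < a k * τ) ∧
      (∀ k, a k * (a k * τ - b k) ≤ K) ∧ (∀ k, (a k : ℝ) ≤ lam * a (k + 1)) ∧
      (∀ k, a k * τ - b k ≤ lam * (a (k + 1) * τ - b (k + 1))) ∧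
      Filter.Tendsto (fun k => (a k : ℝ)) Filter.atTop Filter.atTop := by
  have h := fun k : ℕ => slow_aux τ hirr c hc hbad (2 ^ k) (by positivity)
  choose a b ha han hb hab using h
  set C : ℝ := max 1 (1 / c) with hC
  have hC1 : 1 ≤ C := le_max_left _ _
  have hp : ∀ k : ℕ, (0 : ℝ) < 2 ^ k := fun k => by positivity
  have ha' : ∀ k, (0 : ℝ) < a k := fun k => by exact_mod_cast ha k
  have han' : ∀ k, (a k : ℝ) ≤ 2 ^ k := fun k => by simpa using han k
  have hab' : ∀ k, (a k * τ - b k) * 2 ^ k ≤ C := fun k => by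
    have := hab k
    rw [le_div_iff₀ (by simp)] at this
    simpa using this
  have hη : ∀ k, 0 < a k * τ - b k := fun k => by have := hb k; linarith
  have hbd : ∀ k, c ≤ a k * (a k * τ - b k) := fun k => by
    have := hbad (a k) (b k) (ha k)
    rwa [abs_of_pos (hη k)] at this
  -- lower bounds
  have hlow : ∀ k, c * 2 ^ k ≤ C * a k := fun k => by
    have h1 := hbd k
    have h2 := hab' k
    have h3 := mul_le_mul_of_nonneg_right h1 (hp k).le
    have h4 := mul_le_mul_of_nonneg_left h2 (ha' k).le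
    nlinarith
  have hlow' : ∀ k, c ≤ 2 ^ k * (a k * τ - b k) := fun k =>
    (hbd k).trans (mul_le_mul_of_nonneg_right (han' k) (hη k).le)
  refine ⟨a, b, max 1 (2 * C / c), C, le_max_left _ _, by linarith, ha, hb, ?_, ?_, ?_, ?_⟩
  · intro k
    have h1 := hab' k
    have h2 := mul_le_mul_of_nonneg_right (han' k) (hη k).le
    linarith
  · intro k
    have h1 := hlow (k + 1)
    have h2 := han' k
    rw [pow_succ] at h1
    have h3 : 2 * C / c * a (k + 1) ≤ max 1 (2 * C / c) * a (k + 1) :=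
      mul_le_mul_of_nonneg_right (le_max_right _ _) (ha' _).le
    refine le_trans ?_ h3
    rw [div_mul_eq_mul_div, le_div_iff₀ hc]
    nlinarith [mul_le_mul_of_nonneg_left h2 hc.le, ha' (k+1), hp k, mul_pos hc (hp k)]
  · intro k
    have h1 := hlow' (k + 1)
    have h2 := hab' k
    have h3 : 2 * C / c * (a (k + 1) * τ - b (k + 1)) ≤
        max 1 (2 * C / c) * (a (k + 1) * τ - b (k + 1)) :=
      mul_le_mul_of_nonneg_right (le_max_right _ _) (hη _).le
    refine le_trans ?_ h3
    rw [div_mul_eq_mul_div, le_div_iff₀ hc]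
    rw [pow_succ] at h1
    have h4 := hη k
    have h5 := hη (k + 1)
    have h6 : (a k * τ - b k) * c ≤ (a k * τ - b k) * (2 ^ k * 2 * (a (k + 1) * τ - b (k + 1))) :=
      mul_le_mul_of_nonneg_left h1 h4.le
    have h7 := mul_le_mul_of_nonneg_right h2 (mul_nonneg (by norm_num : (0:ℝ) ≤ 2) h5.le)
    nlinarith
  · have h1 : Filter.Tendsto (fun k : ℕ => (c / C) * (2 : ℝ) ^ k) Filter.atTop Filter.atTop :=
      Filter.Tendsto.const_mul_atTop (by positivity)
        (tendsto_pow_atTop_atTop_of_one_lt (by norm_num))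
    refine Filter.tendsto_atTop_mono (fun k => ?_) h1
    rw [div_mul_eq_mul_div, div_le_iff₀ (by linarith)]
    linarith [hlow k]

end Pool.OG
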