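import Pool.Agent.H20.OG.CUB

/-!
# Row SIU: Siu's criterion for the difference of two nef classes
-/

open Filter Topology

namespace Pool.OG

variable {X : Data}

namespace Red

/-- convexity of `h^0` in the direction of a multiple of an ample class. -/
def Koszul (X : Data) : Prop := ∀ H, X.Ample H → ∃ k : ℕ, 0 < k ∧ ∀ D,
    2 * X.h 0 D ≤ X.h 0 (D - (k : ℤ) • H) + X.h 0 (D + (k : ℤ) • H)

theorem re_inj {n : ℕ} {x y : Fin n → ℤ} (h : re x = re y) : x = y := by
  ext i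
  have := congrFun h i
  simpa [re] using this

theorem re_sum {n : ℕ} {ι : Type*} (s : Finset ι) (f : ι → Fin n → ℤ) :
    re (∑ i ∈ s, f i) = ∑ i ∈ s, re (f i) := by
  ext j
  simp [re, Finset.sum_apply]

/-- clearing denominators -/
theorem clear_den {D : X.Pr →₀ ℚ} (hD : ∀ p, 0 ≤ D p) {k : ℕ} (hk : ∀ p, (D p).den ∣ k) :
    ∃ E : X.Pr →₀ ℕ, (∀ p, D p = 0 → E p = 0) ∧
      ∀ H : Fin X.n → ℤ, cls X D = re H → clN X E = (k : ℤ) • H := by
  classical
  have h0 : ((k : ℚ) * 0).num.toNat = 0 := by simp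
  let E : X.Pr →₀ ℕ := D.mapRange (fun q => ((k : ℚ) * q).num.toNat) h0
  have hE : ∀ p, (E p : ℚ) = k * D p := by
    intro p
    simp only [E, Finsupp.mapRange_apply]
    obtain ⟨j, hj⟩ := hk p
    have h1 : (k : ℚ) * D p = ((j * (D p).num : ℤ) : ℚ) := by
      rw [hj]
      have h2 : ((D p).den : ℚ) * D p = (D p).num := by
        rw [mul_comm]
        exact Rat.mul_den_eq_num (D p)
      push_cast
      rw [mul_right_comm, h2]
      ring
    have h3 : 0 ≤ j * (D p).num := mul_nonneg (by positivity) (Rat.num_nonneg.2 (hD p))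
    rw [h1, Rat.num_intCast]
    have h4 : ((((j : ℤ) * (D p).num).toNat : ℤ) : ℚ) = ((j * (D p).num : ℤ) : ℚ) := by
      rw [Int.toNat_of_nonneg h3]
    exact_mod_cast h4
  refine ⟨E, fun p hp => ?_, fun H hH => ?_⟩
  · have := hE p
    rw [hp, mul_zero] at this
    exact_mod_cast this
  · apply re_inj
    have hsub : E.support ⊆ D.support := Finsupp.support_mapRange
    have e1 : re (clN X E) = ∑ p ∈ D.support, ((E p : ℚ) : ℝ) • re (X.cl p) := by
      unfold clN
      rw [Finsupp.sum_of_support_subset E hsub _ (fun p _ => by simp), re_sum]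
      refine Finset.sum_congr rfl fun p _ => ?_
      rw [re_smul]
      push_cast
      rfl
    rw [e1, re_smul, ← hH]
    unfold cls Finsupp.sum
    rw [Finset.smul_sum]
    refine Finset.sum_congr rfl fun p _ => ?_
    rw [hE p, smul_smul]
    push_cast
    rfl

theorem koszul_of (hY : Cycles X)
    (hav : ∀ H, X.Ample H → ∀ S : Finset X.Pr, ∃ D, Eff X D H ∧ ∀ p ∈ S, D p = 0) :
    Koszul X := by
  classical
  intro Q hQ
  obtain ⟨D₁, h1, _⟩ := hav Q hQ ∅
  obtain ⟨D₂, h2, h2'⟩ := hav Q hQ D₁.support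
  set k : ℕ := (∏ p ∈ D₁.support, (D₁ p).den) * ∏ p ∈ D₂.support, (D₂ p).den with hk
  have hk0 : 0 < k := Nat.mul_pos (Finset.prod_pos fun p _ => (D₁ p).den_pos)
    (Finset.prod_pos fun p _ => (D₂ p).den_pos)
  have d1 : ∀ p, (D₁ p).den ∣ k := by
    intro p
    by_cases hp : p ∈ D₁.support
    · exact (Finset.dvd_prod_of_mem (fun p => (D₁ p).den) hp).trans (dvd_mul_right _ _)
    · rw [Finsupp.notMem_support_iff] at hp
      rw [hp]
      simp
  have d2 : ∀ p, (D₂ p).den ∣ k := by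
    intro p
    by_cases hp : p ∈ D₂.support
    · exact (Finset.dvd_prod_of_mem (fun p => (D₂ p).den) hp).trans (dvd_mul_left _ _)
    · rw [Finsupp.notMem_support_iff] at hp
      rw [hp]
      simp
  obtain ⟨E, hE0, hE⟩ := clear_den h1.1 d1
  obtain ⟨G, hG0, hG⟩ := clear_den h2.1 d2
  refine ⟨k, hk0, fun D => ?_⟩
  have h3 := hY.restr D E G fun p => by
    by_cases hp : p ∈ D₁.support
    · exact Or.inr (hG0 p (h2' p hp))
    · exact Or.inl (hE0 p (Finsupp.notMem_support_iff.1 hp))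
  rw [hE Q h1.2, hG Q h2.2, add_sub_cancel_right] at h3
  omega

theorem sy1 (hX : Positivity X) (x y z : Fin X.n → ℝ) : tri X.t x y z = tri X.t y x z := by
  unfold tri
  rw [Finset.sum_comm]
  refine Finset.sum_congr rfl fun i _ => Finset.sum_congr rfl fun j _ =>
    Finset.sum_congr rfl fun k _ => ?_
  rw [hX.symm1 j i k]; ring

theorem sy2 (hX : Positivity X) (x y z : Fin X.n → ℝ) : tri X.t x y z = tri X.t x z y := by
  unfold tri
  refine Finset.sum_congr rfl fun i _ => ?_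
  rw [Finset.sum_comm]
  refine Finset.sum_congr rfl fun j _ =>
    Finset.sum_congr rfl fun k _ => ?_
  rw [hX.symm2 i k j]; ring

theorem cubic_pos {d : ℝ} (hd : 0 < d) (a b c : ℝ) (N : ℕ) :
    ∃ n : ℕ, N ≤ n ∧ 0 < n ∧ 0 < d * (n : ℝ) ^ 3 + a * (n : ℝ) ^ 2 + b * n + c := by
  obtain ⟨n, hn⟩ := exists_nat_gt (max (max 1 (N : ℝ)) ((|a| + |b| + |c|) / d))
  have h1 : (1 : ℝ) < n := ((le_max_left _ _).trans (le_max_left _ _)).trans_lt hn
  have h2 : (N : ℝ) < n := ((le_max_right _ _).trans (le_max_left _ _)).trans_lt hn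
  have h3 : (|a| + |b| + |c|) / d < n := (le_max_right _ _).trans_lt hn
  rw [div_lt_iff₀ hd] at h3
  refine ⟨n, by exact_mod_cast h2.le, by exact_mod_cast (show (0 : ℝ) < n by linarith), ?_⟩
  have e1 : (n : ℝ) ≤ (n : ℝ) ^ 2 := by nlinarith
  have e2 : (1 : ℝ) ≤ (n : ℝ) ^ 2 := by nlinarith
  have e3 : (|a| + |b| + |c|) * (n : ℝ) ^ 2 < d * (n : ℝ) ^ 3 := by
    have : (|a| + |b| + |c|) * (n : ℝ) ^ 2 < (n * d) * (n : ℝ) ^ 2 :=
      mul_lt_mul_of_pos_right h3 (by positivity)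
    calc (|a| + |b| + |c|) * (n : ℝ) ^ 2 < (n * d) * (n : ℝ) ^ 2 := this
      _ = d * (n : ℝ) ^ 3 := by ring
  have f1 : -(|a| * (n : ℝ) ^ 2) ≤ a * (n : ℝ) ^ 2 := by
    have := mul_le_mul_of_nonneg_right (neg_abs_le a) (show (0 : ℝ) ≤ (n : ℝ) ^ 2 by positivity)
    linarith
  have f2 : -(|b| * (n : ℝ) ^ 2) ≤ b * n := by
    have h5 := mul_le_mul_of_nonneg_right (neg_abs_le b) (show (0 : ℝ) ≤ (n : ℝ) by positivity)
    have h6 := mul_le_mul_of_nonneg_left e1 (abs_nonneg b)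
    linarith
  have f3 : -(|c| * (n : ℝ) ^ 2) ≤ c := by
    have h5 := neg_abs_le c
    have h6 := mul_le_mul_of_nonneg_left e2 (abs_nonneg c)
    linarith
  nlinarith

theorem siu_ample (hP : Positivity X) (hC : Cohomology X) (hkz : Koszul X) {P Q : Fin X.n → ℤ} (hPa : X.Ample P)
    (hQa : X.Ample Q)
    (h : 3 * tri X.t (re P) (re P) (re Q) < tri X.t (re P) (re P) (re P)) :
    ∃ m : ℕ, 0 < m ∧ X.h 0 ((m : ℤ) • (P - Q)) ≠ 0 := by
  obtain ⟨k, hk, hkos⟩ := hkz Q hQa
  have hk' : (0 : ℝ) < k := by exact_mod_cast hk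
  set P' : Fin X.n → ℤ := (k : ℤ) • P with hP'
  set Q' : Fin X.n → ℤ := (k : ℤ) • Q with hQ'
  have rP' : re P' = (k : ℝ) • re P := by rw [hP', re_smul]; push_cast; rfl
  have rQ' : re Q' = (k : ℝ) • re Q := by rw [hQ', re_smul]; push_cast; rfl
  have iP' : re P' ∈ interior (Nef X) := by rw [rP']; exact int_smul hk' (aint hP hPa)
  have iQ' : re Q' ∈ interior (Nef X) := by rw [rQ']; exact int_smul hk' (aint hP hQa)
  have h' : 3 * tri X.t (re P') (re P') (re Q') < tri X.t (re P') (re P') (re P') := by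
    rw [rP', rQ']
    simp only [tri_smul1, tri_smul2, tri_smul3]
    have := mul_lt_mul_of_pos_left h (show (0 : ℝ) < (k : ℝ) ^ 3 by positivity)
    nlinarith
  obtain ⟨ε, hε, hεi⟩ := int_absorb iP' (re Q')
  obtain ⟨N, hN⟩ := exists_nat_gt (1 / ε)
  set a := tri X.t (re P') (re Q') (re Q') / 2 with ha
  set b := lin X.c2 (re P') / 12 - tri X.t (re Q') (re Q') (re Q') / 6 -
    lin X.c2 (re Q') / 12 with hb
  obtain ⟨m, hmN, hm, hpos⟩ := cubic_pos
    (show 0 < (tri X.t (re P') (re P') (re P') - 3 * tri X.t (re P') (re P') (re Q')) / 6 by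
      linarith) a b 0 N
  have hm' : (0 : ℝ) < m := by exact_mod_cast hm
  -- the function
  let g : ℕ → ℝ := fun j => (X.h 0 ((m : ℤ) • P' - (j : ℤ) • Q') : ℝ)
  have hconv : ∀ j : ℕ, 2 * g (j + 1) ≤ g (j + 2) + g j := by
    intro j
    have h1 := hkos ((m : ℤ) • P' - ((j + 1 : ℕ) : ℤ) • Q')
    have e1 : (m : ℤ) • P' - ((j + 1 : ℕ) : ℤ) • Q' - (k : ℤ) • Q =
        (m : ℤ) • P' - ((j + 2 : ℕ) : ℤ) • Q' := by
      rw [← hQ']; push_cast
      ext i
      simp only [Pi.sub_apply, Pi.smul_apply, smul_eq_mul]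
      ring
    have e2 : (m : ℤ) • P' - ((j + 1 : ℕ) : ℤ) • Q' + (k : ℤ) • Q =
        (m : ℤ) • P' - ((j : ℕ) : ℤ) • Q' := by
      rw [← hQ']; push_cast
      ext i
      simp only [Pi.sub_apply, Pi.add_apply, Pi.smul_apply, smul_eq_mul]
      ring
    rw [e1, e2] at h1
    simp only [g]
    exact_mod_cast h1
  have hdec : ∀ j : ℕ, g j - g (j + 1) ≤ g 0 - g 1 := by
    intro j
    induction j with
    | zero => exact le_rfl
    | succ j ih =>
      have := hconv j
      linarith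
  have hlow : ∀ j : ℕ, g 0 - j * (g 0 - g 1) ≤ g j := by
    intro j
    induction j with
    | zero => simp
    | succ j ih =>
      have := hdec j
      push_cast
      linarith
  have g0 : g 0 = (m : ℝ) ^ 3 * tri X.t (re P') (re P') (re P') / 6 +
      m * lin X.c2 (re P') / 12 := by
    simp only [g]
    have e : (m : ℤ) • P' - ((0 : ℕ) : ℤ) • Q' = (m : ℤ) • P' := by simp
    rw [e, h0F hC (by
      rw [hP.kleiman, re_smul]
      exact int_smul (by exact_mod_cast hm) iP'), re_smul, tri_smul1, tri_smul2, tri_smul3,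
      lin_smul]
    push_cast
    ring
  have g1 : g 1 = ((m : ℝ) ^ 3 * tri X.t (re P') (re P') (re P') -
      3 * (m : ℝ) ^ 2 * tri X.t (re P') (re P') (re Q') +
      3 * m * tri X.t (re P') (re Q') (re Q') - tri X.t (re Q') (re Q') (re Q')) / 6 +
      (m * lin X.c2 (re P') - lin X.c2 (re Q')) / 12 := by
    simp only [g]
    have e : (m : ℤ) • P' - ((1 : ℕ) : ℤ) • Q' = (m : ℤ) • P' - Q' := by simp
    have ei : re ((m : ℤ) • P' - Q') = (m : ℝ) • re P' - re Q' := by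
      rw [re_sub, re_smul]
      push_cast
      rfl
    rw [e, h0F hC (by
      rw [hP.kleiman, ei]
      have hNm : 1 / ε < m := hN.trans_le (by exact_mod_cast hmN)
      have h1 : 1 / (m : ℝ) ≤ ε := by
        rw [div_lt_iff₀ hε] at hNm
        rw [div_le_iff₀ hm']
        linarith
      have h2 : (re P' - ε • re Q') + (ε - 1 / (m : ℝ)) • re Q' ∈ interior (Nef X) :=
        int_add hεi (nef_smul (by linarith) (int_nef iQ'))
      have h3 := int_smul hm' h2
      have h4 : (m : ℝ) • ((re P' - ε • re Q') + (ε - 1 / (m : ℝ)) • re Q') =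
          (m : ℝ) • re P' - re Q' := by
        ext i
        simp only [Pi.smul_apply, Pi.add_apply, Pi.sub_apply, smul_eq_mul]
        field_simp
        ring
      rw [← h4]
      exact h3), ei]
    simp only [tri_sub1, tri_sub2, tri_sub3, tri_smul1, tri_smul2, tri_smul3, lin_sub, lin_smul]
    rw [sy1 hP (re Q') (re P') (re P'), sy2 hP (re P') (re Q') (re P'),
      sy1 hP (re Q') (re P') (re Q'), sy2 hP (re Q') (re Q') (re P'),
      sy1 hP (re Q') (re P') (re Q')]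
    ring
  refine ⟨m * k, Nat.mul_pos hm hk, ?_⟩
  have hgm : 0 < g m := by
    refine lt_of_lt_of_le ?_ (hlow m)
    rw [g0, g1]
    have e : (m : ℝ) ^ 3 * tri X.t (re P') (re P') (re P') / 6 + m * lin X.c2 (re P') / 12 -
        m * ((m : ℝ) ^ 3 * tri X.t (re P') (re P') (re P') / 6 + m * lin X.c2 (re P') / 12 -
        (((m : ℝ) ^ 3 * tri X.t (re P') (re P') (re P') -
          3 * (m : ℝ) ^ 2 * tri X.t (re P') (re P') (re Q') +
          3 * m * tri X.t (re P') (re Q') (re Q') - tri X.t (re Q') (re Q') (re Q')) / 6 +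
          (m * lin X.c2 (re P') - lin X.c2 (re Q')) / 12)) =
        (tri X.t (re P') (re P') (re P') - 3 * tri X.t (re P') (re P') (re Q')) / 6 *
          (m : ℝ) ^ 3 + a * (m : ℝ) ^ 2 + b * m + 0 := by
      rw [ha, hb]
      ring
    rw [e]
    exact hpos
  have e : (m : ℤ) • P' - (m : ℤ) • Q' = ((m * k : ℕ) : ℤ) • (P - Q) := by
    rw [hP', hQ']
    push_cast
    ext i
    simp only [Pi.sub_apply, Pi.smul_apply, smul_eq_mul]
    ring
  simp only [g] at hgm
  rw [e] at hgm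
  intro h0
  rw [h0] at hgm
  simp at hgm

theorem siu (hP : Positivity X) (hC : Cohomology X) (hkz : Koszul X) (P Q : Fin X.n → ℤ) (hPn : re P ∈ Nef X)
    (hQn : re Q ∈ Nef X)
    (h : 3 * tri X.t (re P) (re P) (re Q) < tri X.t (re P) (re P) (re P)) :
    ∃ m : ℕ, 0 < m ∧ X.h 0 ((m : ℤ) • (P - Q)) ≠ 0 := by
  obtain ⟨H, hH⟩ := hP.projective
  set p := re P with hp
  set q := re Q with hq
  set w := re H with hw
  obtain ⟨n, _, hn, hpos⟩ := cubic_pos
    (show 0 < tri X.t p p p - 3 * tri X.t p p q by linarith)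
    (3 * tri X.t p p w - 3 * (tri X.t p p w + 2 * tri X.t p q w))
    (3 * tri X.t p w w - 3 * (2 * tri X.t p w w + tri X.t q w w))
    (tri X.t w w w - 3 * tri X.t w w w) 0
  have hn' : (0 : ℝ) < n := by exact_mod_cast hn
  have rP : re ((n : ℤ) • P + H) = (n : ℝ) • p + w := by
    rw [re_add, re_smul]; push_cast; rfl
  have rQ : re ((n : ℤ) • Q + H) = (n : ℝ) • q + w := by
    rw [re_add, re_smul]; push_cast; rfl
  have hPa : X.Ample ((n : ℤ) • P + H) := by
    rw [hP.kleiman, rP, add_comm]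
    exact int_add (aint hP hH) (nef_smul hn'.le hPn)
  have hQa : X.Ample ((n : ℤ) • Q + H) := by
    rw [hP.kleiman, rQ, add_comm]
    exact int_add (aint hP hH) (nef_smul hn'.le hQn)
  obtain ⟨m, hm, hm0⟩ := siu_ample hP hC hkz hPa hQa (by
    rw [rP, rQ]
    simp only [tri_add1, tri_add2, tri_add3, tri_smul1, tri_smul2, tri_smul3]
    rw [sy1 hP w p p, sy2 hP p w p, sy1 hP w p w, sy2 hP w w p, sy1 hP w p w,
      sy1 hP w p q, sy2 hP p w q, sy2 hP w w q, sy1 hP w q w]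
    nlinarith)
  refine ⟨m * n, Nat.mul_pos hm hn, ?_⟩
  have e : (m : ℤ) • ((n : ℤ) • P + H - ((n : ℤ) • Q + H)) = ((m * n : ℕ) : ℤ) • (P - Q) := by
    push_cast
    ext i
    simp only [Pi.sub_apply, Pi.add_apply, Pi.smul_apply, smul_eq_mul]
    ring
  rw [← e]
  exact hm0

end Red

/-- ROW SIU, with row AVD as a hypothesis. -/
theorem siu_of_avoid (hP : Positivity X) (hC : Cohomology X) (hY : Cycles X)
    (hav : ∀ H, X.Ample H → ∀ S : Finset X.Pr, ∃ D, Eff X D H ∧ ∀ p ∈ S, D p = 0)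
    (P Q : Fin X.n → ℤ) (hPn : re P ∈ Nef X) (hQn : re Q ∈ Nef X)
    (h : 3 * tri X.t (re P) (re P) (re Q) < tri X.t (re P) (re P) (re P)) :
    ∃ m : ℕ, 0 < m ∧ X.h 0 ((m : ℤ) • (P - Q)) ≠ 0 :=
  Red.siu hP hC (Red.koszul_of hY hav) P Q hPn hQn h

end Pool.OG
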