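import Mathlib

/-!
# The Pell sequence of an indefinite binary quadratic form with irrational roots, and a norm bound
-/

open Filter Topology

namespace Pool.Agent.H20.OG

/-- Integers `a n`, `b n` with `A a² + B a b + C b² = C` converging to the ray of the largest
root `θ` of `A X² + B X + C`. -/
theorem pell_seq (A B C : ℤ) (hA : 0 < A) (hB : 0 ≤ B) (hC : 0 < C) (θ : ℝ)
    (hθ : (A : ℝ) * θ ^ 2 + B * θ + C = 0) (hs : 0 < 2 * (A : ℝ) * θ + B)
    (hirr : Irrational θ) :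
    ∃ (l : ℝ) (a b : ℕ → ℤ), 1 < l ∧ (∀ n, 0 < b n) ∧ Monotone b ∧
      Tendsto (fun n => (b n : ℝ)) atTop atTop ∧
      (∀ n, A * a n ^ 2 + B * (a n * b n) + C * b n ^ 2 = C) ∧
      (∀ n, 0 < (a n : ℝ) - θ * b n) ∧
      (∀ n, l * ((a (n + 1) : ℝ) - θ * b (n + 1)) = (a n : ℝ) - θ * b n) ∧
      (∀ n, ((a n : ℝ) - θ * b n) * b n ≤ C / (2 * (A : ℝ) * θ + B)) := by
  have hA' : (0 : ℝ) < A := by exact_mod_cast hA
  have hB' : (0 : ℝ) ≤ B := by exact_mod_cast hB
  have hC' : (0 : ℝ) < C := by exact_mod_cast hC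
  set s : ℝ := 2 * (A : ℝ) * θ + B with hsd
  have hs2 : s ^ 2 = ((B ^ 2 - 4 * A * C : ℤ) : ℝ) := by
    push_cast
    rw [hsd]
    linear_combination 4 * (A : ℝ) * hθ
  have hDpos : 0 < B ^ 2 - 4 * A * C := by
    have : (0 : ℝ) < ((B ^ 2 - 4 * A * C : ℤ) : ℝ) := by rw [← hs2]; positivity
    exact_mod_cast this
  have hDns : ¬ IsSquare (B ^ 2 - 4 * A * C) := by
    rintro ⟨k, hk⟩
    have h1 : s ^ 2 = ((|k| : ℤ) : ℝ) ^ 2 := by
      rw [hs2, hk]
      push_cast
      rw [sq_abs]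
      ring
    have h2 : s = ((|k| : ℤ) : ℝ) := by
      have h3 : (0 : ℝ) ≤ ((|k| : ℤ) : ℝ) := by exact_mod_cast abs_nonneg k
      exact (pow_left_inj₀ hs.le h3 two_ne_zero).1 h1
    apply hirr
    refine ⟨((|k| - B : ℤ) : ℚ) / ((2 * A : ℤ) : ℚ), ?_⟩
    push_cast at h2 ⊢
    rw [← h2, hsd]
    field_simp
    ring
  obtain ⟨x, y, hxy, hy⟩ : ∃ x y : ℤ, x ^ 2 - (B ^ 2 - 4 * A * C) * y ^ 2 = 1 ∧ y ≠ 0 :=
    Pell.exists_of_not_isSquare hDpos hDns
  wlog hx0 : 0 ≤ x generalizing x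
  · exact this (-x) (by rw [neg_sq]; exact hxy) (by omega)
  wlog hy0 : 0 < y generalizing y
  · exact this (-y) (by omega) (by rw [neg_sq]; exact hxy) (by omega)
  have hy1 : (1 : ℝ) ≤ y := by exact_mod_cast hy0
  have hx1 : (0 : ℝ) ≤ x := by exact_mod_cast hx0
  have hxyR : ((x : ℝ) + y * s) * (x - y * s) = 1 := by
    have : (x : ℝ) ^ 2 - ((B ^ 2 - 4 * A * C : ℤ) : ℝ) * y ^ 2 = 1 := by exact_mod_cast hxy
    rw [← hs2] at this
    linear_combination this
  set l : ℝ := (x : ℝ) + y * s with hl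
  set l' : ℝ := (x : ℝ) - y * s with hl'
  have hlpos : 0 < l := by positivity
  have hl'pos : 0 < l' := by
    by_contra h
    push Not at h
    nlinarith
  have hll : l' < l := by
    rw [hl, hl']
    nlinarith
  have hl1 : 1 < l := by
    by_contra h
    push Not at h
    nlinarith
  have hl'1 : l' < 1 := by
    by_contra h
    push Not at h
    nlinarith
  set t : ℝ := -(B : ℝ) / A - θ with ht
  have hAt : (A : ℝ) * t = -B - A * θ := by
    rw [ht]
    field_simp
  have hsum : (A : ℝ) * (θ + t) = -B := by linarith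
  have hprod : (A : ℝ) * (θ * t) = C := by
    have : (A : ℝ) * (θ * t) = θ * (A * t) := by ring
    rw [this, hAt]
    linear_combination -hθ
  have hθt : 0 < θ * t := by
    have : 0 < (A : ℝ) * (θ * t) := by rw [hprod]; exact hC'
    exact (mul_pos_iff_of_pos_left hA').1 this
  have hdif : (A : ℝ) * (θ - t) = s := by rw [hsd]; linarith
  have htθ : t < θ := by
    have : 0 < (A : ℝ) * (θ - t) := by rw [hdif]; exact hs
    have := (mul_pos_iff_of_pos_left hA').1 this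
    linarith
  have hθneg : θ < 0 := by
    by_contra h
    push Not at h
    have h1 : 0 < θ := lt_of_le_of_ne h (fun e => by rw [← e] at hθt; simp at hθt)
    have h2 : 0 < t := (mul_pos_iff_of_pos_left h1).1 hθt
    nlinarith
  have htneg : t < 0 := htθ.trans hθneg
  -- the sequence
  let step : ℤ × ℤ → ℤ × ℤ := fun p =>
    ((x - B * y) * p.1 - 2 * C * y * p.2, 2 * A * y * p.1 + (x + B * y) * p.2)
  let sq : ℕ → ℤ × ℤ := fun n => step^[n] (0, 1)
  have sq0 : sq 0 = (0, 1) := rfl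
  have sqs : ∀ n, sq (n + 1) = step (sq n) := fun n => Function.iterate_succ_apply' _ _ _
  have e1 : ∀ p : ℤ × ℤ, (((step p).1 : ℝ) - θ * (step p).2) = l' * ((p.1 : ℝ) - θ * p.2) := by
    intro p
    simp only [step, hl', hsd]
    push_cast
    linear_combination (-2 * (y : ℝ) * p.2) * hθ
  have hθ2 : (A : ℝ) * t ^ 2 + B * t + C = 0 := by
    have : (A : ℝ) * t ^ 2 = t * (A * t) := by ring
    rw [this, hAt, ← hprod]
    ring
  have hst : s = -(2 * (A : ℝ) * t + B) := by rw [hsd]; linarith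
  have e2 : ∀ p : ℤ × ℤ, (((step p).1 : ℝ) - t * (step p).2) = l * ((p.1 : ℝ) - t * p.2) := by
    intro p
    simp only [step, hl, hst]
    push_cast
    linear_combination (-2 * (y : ℝ) * p.2) * hθ2
  have f1 : ∀ n, (((sq n).1 : ℝ) - θ * (sq n).2) = -θ * l' ^ n := by
    intro n
    induction n with
    | zero => rw [sq0]; simp
    | succ n ih => rw [sqs, e1, ih]; ring
  have f2 : ∀ n, (((sq n).1 : ℝ) - t * (sq n).2) = -t * l ^ n := by
    intro n
    induction n with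
    | zero => rw [sq0]; simp
    | succ n ih => rw [sqs, e2, ih]; ring
  have f3 : ∀ n, ((sq n).2 : ℝ) * s = A * (-t * l ^ n + θ * l' ^ n) := by
    intro n
    rw [← hdif]
    linear_combination (A : ℝ) * (f2 n) - (A : ℝ) * (f1 n)
  have hl'n : ∀ n, l' ^ n ≤ 1 := fun n => pow_le_one₀ hl'pos.le hl'1.le
  have hln : ∀ n, 1 ≤ l ^ n := fun n => one_le_pow₀ hl1.le
  have hl'np : ∀ n, 0 < l' ^ n := fun n => pow_pos hl'pos n
  have fpos : ∀ n, (0 : ℝ) < (sq n).2 := by
    intro n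
    have h1 : (0 : ℝ) < (sq n).2 * s := by
      rw [f3]
      apply mul_pos hA'
      nlinarith [hl'n n, hln n]
    exact (mul_pos_iff_of_pos_right hs).1 h1
  refine ⟨l, fun n => (sq n).1, fun n => (sq n).2, hl1, fun n => by exact_mod_cast fpos n,
    ?_, ?_, ?_, ?_, ?_, ?_⟩
  · refine monotone_nat_of_le_succ fun n => ?_
    have h1 : ((sq n).2 : ℝ) * s ≤ (sq (n + 1)).2 * s := by
      rw [f3, f3]
      apply mul_le_mul_of_nonneg_left _ hA'.le
      have g1 : l ^ n ≤ l ^ (n + 1) := pow_le_pow_right₀ hl1.le (Nat.le_succ n)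
      have g2 : l' ^ (n + 1) ≤ l' ^ n := pow_le_pow_of_le_one hl'pos.le hl'1.le (Nat.le_succ n)
      nlinarith
    have h2 : ((sq n).2 : ℝ) ≤ (sq (n + 1)).2 := le_of_mul_le_mul_right h1 hs
    exact_mod_cast h2
  · have h1 : Tendsto (fun n => l ^ n) atTop atTop := tendsto_pow_atTop_atTop_of_one_lt hl1
    have h2 : Tendsto (fun n => (A * (-t) / s) * l ^ n + A * θ / s) atTop atTop :=
      tendsto_atTop_add_const_right _ _
        (h1.const_mul_atTop (by
          apply div_pos _ hs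
          exact mul_pos hA' (by linarith)))
    refine tendsto_atTop_mono (fun n => ?_) h2
    have h3 : ((sq n).2 : ℝ) = A * (-t * l ^ n + θ * l' ^ n) / s := by
      rw [← f3]
      field_simp
    rw [h3]
    have h4 : A * -t / s * l ^ n + A * θ / s = A * (-t * l ^ n + θ) / s := by ring
    rw [h4]
    apply div_le_div_of_nonneg_right _ hs.le
    apply mul_le_mul_of_nonneg_left _ hA'.le
    nlinarith [hl'n n]
  · intro n
    have h1 : ((A * (sq n).1 ^ 2 + B * ((sq n).1 * (sq n).2) + C * (sq n).2 ^ 2 : ℤ) : ℝ) = C := by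
      push_cast
      have h2 : (A : ℝ) * (sq n).1 ^ 2 + B * ((sq n).1 * (sq n).2) + C * (sq n).2 ^ 2 =
          A * ((((sq n).1 : ℝ) - θ * (sq n).2) * (((sq n).1 : ℝ) - t * (sq n).2)) := by
        rw [← hprod]
        linear_combination ((sq n).1 : ℝ) * (sq n).2 * hsum
      rw [h2, f1, f2]
      have h3 : l ^ n * l' ^ n = 1 := by rw [← mul_pow, hxyR, one_pow]
      calc (A : ℝ) * (-θ * l' ^ n * (-t * l ^ n)) = A * (θ * t) * (l ^ n * l' ^ n) := by ring
        _ = C := by rw [h3, hprod, mul_one]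
    exact_mod_cast h1
  · intro n
    simp only
    rw [f1]
    exact mul_pos (by linarith) (hl'np n)
  · intro n
    simp only
    rw [f1, f1, pow_succ]
    linear_combination (-θ * l' ^ n) * hxyR
  · intro n
    simp only
    rw [le_div_iff₀ hs, mul_assoc, f3, f1]
    have h3 : l ^ n * l' ^ n = 1 := by rw [← mul_pow, hxyR, one_pow]
    have h4 : -θ * l' ^ n * (A * (-t * l ^ n + θ * l' ^ n)) =
        A * (θ * t) * (l ^ n * l' ^ n) - A * (θ * l' ^ n) ^ 2 := by ring
    rw [h4, h3, hprod]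
    nlinarith [mul_nonneg hA'.le (sq_nonneg (θ * l' ^ n))]

/-- The norm bound. -/
theorem norm_bound (A B C : ℤ) (hA : 0 < A) (θ : ℝ) (hθ : (A : ℝ) * θ ^ 2 + B * θ + C = 0)
    (hirr : Irrational θ) (c : ℝ) (hc : 0 ≤ c) :
    ∃ k : ℝ, 0 < k ∧ ∀ u v w : ℤ, 0 ≤ v → 0 ≤ w → (v : ℝ) ≤ c * u → (w : ℝ) ≤ c * v →
      0 < (u : ℝ) + 2 * θ * v + θ ^ 2 * w → k ≤ ((u : ℝ) + 2 * θ * v + θ ^ 2 * w) * u := by
  have hA' : (0 : ℝ) < A := by exact_mod_cast hA
  set t : ℝ := -(B : ℝ) / A - θ with ht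
  have hAt : (A : ℝ) * t = -B - A * θ := by
    rw [ht]
    field_simp
  have hprod : (A : ℝ) * (θ * t) = C := by
    have : (A : ℝ) * (θ * t) = θ * (A * t) := by ring
    rw [this, hAt]
    linear_combination -hθ
  set K : ℝ := 1 + 2 * |t| * c + t ^ 2 * (c * c) with hK
  have hKpos : 0 < K := by positivity
  refine ⟨1 / (A ^ 3 * K), by positivity, fun u v w hv hw hvu hwv hm => ?_⟩
  set m : ℝ := (u : ℝ) + 2 * θ * v + θ ^ 2 * w with hmd
  set m' : ℝ := (u : ℝ) + 2 * t * v + t ^ 2 * w with hmd'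
  have hv' : (0 : ℝ) ≤ v := by exact_mod_cast hv
  have hw' : (0 : ℝ) ≤ w := by exact_mod_cast hw
  have hθ2 : (A : ℝ) * t ^ 2 + B * t + C = 0 := by
    have : (A : ℝ) * t ^ 2 = t * (A * t) := by ring
    rw [this, hAt, ← hprod]
    ring
  set P : ℤ := A * u - C * w with hP
  set Q : ℤ := 2 * A * v - B * w with hQ
  have h1 : (A : ℝ) * m = P + θ * Q := by
    rw [hmd, hP, hQ]
    push_cast
    linear_combination (w : ℝ) * hθ
  have h2 : (A : ℝ) * m' = P + t * Q := by
    rw [hmd', hP, hQ]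
    push_cast
    linear_combination (w : ℝ) * hθ2
  have h3 : (A : ℝ) ^ 3 * (m * m') = ((A * P ^ 2 - B * (P * Q) + C * Q ^ 2 : ℤ) : ℝ) := by
    have : (A : ℝ) ^ 3 * (m * m') = A * ((A * m) * (A * m')) := by ring
    rw [this, h1, h2]
    push_cast
    rw [← hprod]
    linear_combination (P : ℝ) * Q * hAt
  have h4 : (A * P ^ 2 - B * (P * Q) + C * Q ^ 2 : ℤ) ≠ 0 := by
    intro h0
    have h5 : (A : ℝ) ^ 3 * (m * m') = 0 := by rw [h3, h0]; simp
    have h6 : m' = 0 := by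
      have : (A : ℝ) ^ 3 * m ≠ 0 := by positivity
      have h7 : ((A : ℝ) ^ 3 * m) * m' = 0 := by rw [mul_assoc]; exact h5
      exact (mul_eq_zero.1 h7).resolve_left this
    have h7 : (P : ℝ) + t * Q = 0 := by rw [← h2, h6, mul_zero]
    have hQ0 : Q = 0 := by
      by_contra hQn
      have hQn' : (Q : ℝ) ≠ 0 := by exact_mod_cast hQn
      apply hirr
      refine ⟨(((-B : ℤ) : ℚ) / A) + (P : ℚ) / Q, ?_⟩
      push_cast
      have h8 : t = -(P : ℝ) / Q := by
        field_simp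
        linarith
      have h9 : θ = -(B : ℝ) / A - t := by rw [ht]; ring
      rw [h9, h8]
      ring
    have hP0 : (P : ℝ) = 0 := by rw [hQ0] at h7; simpa using h7
    have : (A : ℝ) * m = 0 := by rw [h1, hP0, hQ0]; simp
    have hAm : 0 < (A : ℝ) * m := mul_pos hA' hm
    linarith
  have h5 : (1 : ℝ) ≤ |(A : ℝ) ^ 3 * (m * m')| := by
    rw [h3, ← Int.cast_abs]
    exact_mod_cast Int.one_le_abs h4
  have h6 : |m'| ≤ K * u := by
    have hu : (0 : ℝ) ≤ u := by
      by_contra hneg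
      push Not at hneg
      have e1 : (v : ℝ) = 0 := le_antisymm (hvu.trans (mul_nonpos_of_nonneg_of_nonpos hc hneg.le)) hv'
      have e2 : (w : ℝ) = 0 := by
        rw [e1, mul_zero] at hwv
        exact le_antisymm hwv hw'
      rw [hmd, e1, e2] at hm
      linarith
    have e1 : |m'| ≤ u + 2 * |t| * v + t ^ 2 * w := by
      rw [hmd', abs_le]
      have g1 : -|t| ≤ t := neg_abs_le t
      have g2 : t ≤ |t| := le_abs_self t
      have g3 : 0 ≤ t ^ 2 * w := by positivity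
      constructor <;> nlinarith
    have e2 : (w : ℝ) ≤ c * c * u := by
      calc (w : ℝ) ≤ c * v := hwv
        _ ≤ c * (c * u) := by gcongr
        _ = c * c * u := by ring
    calc |m'| ≤ u + 2 * |t| * v + t ^ 2 * w := e1
      _ ≤ u + 2 * |t| * (c * u) + t ^ 2 * (c * c * u) := by gcongr
      _ = K * u := by rw [hK]; ring
  have h7 : |(A : ℝ) ^ 3 * (m * m')| = A ^ 3 * (m * |m'|) := by
    rw [abs_mul, abs_mul, abs_of_pos hm, abs_of_pos (by positivity)]
  rw [h7] at h5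
  rw [div_le_iff₀ (by positivity)]
  calc (1 : ℝ) ≤ A ^ 3 * (m * |m'|) := h5
    _ ≤ A ^ 3 * (m * (K * u)) := by gcongr
    _ = m * u * (A ^ 3 * K) := by ring

end Pool.Agent.H20.OG
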