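import Pool.Agent.H19.OG.Bas
import Pool.Agent.H20.OG.Pell

/-!
# Row COE: the coefficients are bounded (Step 3)
-/

namespace Pool.OG

variable {X : Data}

theorem coef (hX : Facts X) (hR : ¬ X.RC) (L : Fin X.n → ℤ) (hLn : re L ∈ Nef X)
    (H : Fin X.n → ℤ) (hH : X.Ample H) (A B C : ℤ) (θ : ℝ) (hA : 0 < A)
    (hAe : (A : ℝ) = 3 * tri X.t (re L) (re L) (re H))
    (hBe : (B : ℝ) = 3 * tri X.t (re L) (re H) (re H))
    (hL3 : tri X.t (re L) (re L) (re L) = 0) (hirr : Irrational θ)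
    (hroot : A * θ ^ 2 + B * θ + C = 0) (hbig : 0 < 2 * A * θ + B)
    (hM : re H + θ • re L ∈ Nef X)
    (hM3 : tri X.t (re H + θ • re L) (re H + θ • re L) (re H + θ • re L) = 0) (K : ℝ) :
    ∃ C₁ : ℝ, 0 < C₁ ∧ ∀ a b : ℤ, 0 < b → 0 < a - θ * b → b * (a - θ * b) ≤ K →
      ∀ D, Eff X D (a • L + b • H) → ∀ p, (D p : ℝ) ≤ C₁ := by
  have hP := hX.pos
  have hHn := ample_nef hP hH
  obtain ⟨c, hc, hcn⟩ := int_dom (ample_int hP hH) (re L)
  obtain ⟨k, hk, hnorm⟩ :=
    Pool.Agent.H20.OG.norm_bound A B C hA θ hroot hirr c hc.le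
  set M : Fin X.n → ℝ := re H + θ • re L with hMd
  set mL : ℝ := tri X.t M M (re L) with hmL
  set hm : ℝ := tri X.t (re H) (re H) M with hhm
  set hl : ℝ := tri X.t (re H) (re H) (re L) with hhl
  have hm0 : 0 ≤ hm := hP.nef_mul _ hHn _ hHn _ hM
  have hl0 : 0 ≤ hl := hP.nef_mul _ hHn _ hHn _ hLn
  have eLHL : tri X.t (re L) (re H) (re L) = tri X.t (re L) (re L) (re H) := tri_symm2 hP _ _ _
  have eHLL : tri X.t (re H) (re L) (re L) = tri X.t (re L) (re L) (re H) := by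
    rw [tri_symm1 hP, eLHL]
  have eHHL : tri X.t (re H) (re H) (re L) = tri X.t (re L) (re H) (re H) := by
    rw [tri_symm2 hP, tri_symm1 hP]
  have hmLpos : 0 < mL := by
    have e : mL = (2 * A * θ + B) / 3 := by
      rw [hmL, hMd, tri_add1, tri_add2, tri_add2, tri_smul1, tri_smul1, tri_smul2, tri_smul2,
        hL3, eLHL, eHLL, eHHL, hAe, hBe]
      ring
    rw [e]
    positivity
  refine ⟨|K| * mL * (hm + |K| * hl) / k + 1, by positivity, fun a b hb hη hbη D hD p => ?_⟩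
  have hb1 : (1 : ℝ) ≤ b := by exact_mod_cast hb
  set η : ℝ := a - θ * b with hηd
  have hK : 0 < K := lt_of_lt_of_le (by positivity) hbη
  have hηK : η ≤ K := by nlinarith
  set α : ℝ := ((D p : ℚ) : ℝ) with hα
  have hα0 : 0 ≤ α := by rw [hα]; exact_mod_cast hD.1 p
  have hV := pr_ample hX.coh hX.cyc hR p
  have hVi := ample_int hP hV
  have hVn := int_nef hVi
  set V := X.cl p with hVd
  have hN := eff_sub_nef hP hX.coh hX.cyc hR hD.1 p
  have hcls : cls X D = (b : ℝ) • M + η • re L := by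
    rw [hD.2, re_add, re_smul, re_smul, hMd, hηd, smul_add, smul_smul]
    have e : (a : ℝ) • re L = ((b : ℝ) * θ) • re L + ((a : ℝ) - θ * b) • re L := by
      rw [← add_smul]
      congr 1
      ring
    rw [e]
    abel
  rw [hcls] at hN
  -- the two inequalities
  set m : ℝ := tri X.t M M (re V) with hmd
  have i1 : α * m ≤ η * mL := by
    have h := hP.nef_mul _ hM _ hM _ hN
    rw [tri_sub3, tri_add3, tri_smul3, tri_smul3, tri_smul3, hM3, mul_zero, zero_add] at h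
    linarith
  have i2 : α * tri X.t (re H) (re H) (re V) ≤ b * (hm + K * hl) := by
    have h := hP.nef_mul _ hHn _ hHn _ hN
    rw [tri_sub3, tri_add3, tri_smul3, tri_smul3, tri_smul3] at h
    have h2 : η * hl ≤ b * (K * hl) := by
      have : η * hl ≤ K * hl := mul_le_mul_of_nonneg_right hηK hl0
      nlinarith [mul_nonneg hK.le hl0]
    rw [← hhm, ← hhl] at h
    linarith
  -- the norm
  have eu : tri X.t (re H) (re H) (re V) = (triZ X.t H H V : ℝ) := tri_re _ _ _ _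
  have ev : tri X.t (re H) (re L) (re V) = (triZ X.t H L V : ℝ) := tri_re _ _ _ _
  have ew : tri X.t (re L) (re L) (re V) = (triZ X.t L L V : ℝ) := tri_re _ _ _ _
  have em : m = (triZ X.t H H V : ℝ) + 2 * θ * (triZ X.t H L V : ℝ) +
      θ ^ 2 * (triZ X.t L L V : ℝ) := by
    rw [hmd, hMd, tri_add1, tri_add2, tri_add2, tri_smul1, tri_smul1, tri_smul2, tri_smul2,
      tri_symm1 hP (re L) (re H) (re V), eu, ev, ew]
    ring
  have hmpos : 0 < m := by
    obtain ⟨κ, hκ, hκn⟩ := int_dom hVi (re L)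
    have h := hP.nef_mul _ hM _ hM _ hκn
    rw [tri_sub3, tri_smul3] at h
    have h1 : 0 < κ * m := by linarith
    exact (mul_pos_iff_of_pos_left hκ).1 h1
  have v0 : 0 ≤ triZ X.t H L V := by
    have h := hP.nef_mul _ hHn _ hLn _ hVn
    rw [ev] at h
    exact_mod_cast h
  have w0 : 0 ≤ triZ X.t L L V := by
    have h := hP.nef_mul _ hLn _ hLn _ hVn
    rw [ew] at h
    exact_mod_cast h
  have vu : (triZ X.t H L V : ℝ) ≤ c * (triZ X.t H H V : ℝ) := by
    have h := hP.nef_mul _ hHn _ hcn _ hVn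
    rw [tri_sub2, tri_smul2, eu, ev] at h
    linarith
  have wv : (triZ X.t L L V : ℝ) ≤ c * (triZ X.t H L V : ℝ) := by
    have h := hP.nef_mul _ hLn _ hcn _ hVn
    rw [tri_sub2, tri_smul2, tri_symm1 hP (re L) (re H) (re V), ev, ew] at h
    linarith
  have hkm := hnorm _ _ _ v0 w0 vu wv (em ▸ hmpos)
  rw [← em, ← eu] at hkm
  set u : ℝ := tri X.t (re H) (re H) (re V) with hu
  have hu0 : 0 ≤ u := hP.nef_mul _ hHn _ hHn _ hVn
  have hprod : α ^ 2 * k ≤ K * mL * (hm + K * hl) := by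
    have h1 : (α * m) * (α * u) ≤ (η * mL) * (b * (hm + K * hl)) :=
      mul_le_mul i1 i2 (mul_nonneg hα0 hu0) (mul_nonneg hη.le hmLpos.le)
    have h2 : (η * mL) * (b * (hm + K * hl)) = (b * η) * (mL * (hm + K * hl)) := by ring
    have h3 : (b * η) * (mL * (hm + K * hl)) ≤ K * (mL * (hm + K * hl)) :=
      mul_le_mul_of_nonneg_right hbη (by positivity)
    have h4 : α ^ 2 * k ≤ α ^ 2 * (m * u) := mul_le_mul_of_nonneg_left hkm (sq_nonneg α)
    calc α ^ 2 * k ≤ α ^ 2 * (m * u) := h4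
      _ = (α * m) * (α * u) := by ring
      _ ≤ K * mL * (hm + K * hl) := by rw [h2] at h1; linarith
  rw [abs_of_pos hK]
  have h5 : α ^ 2 ≤ K * mL * (hm + K * hl) / k := (le_div_iff₀ hk).2 hprod
  nlinarith [sq_nonneg (α - 1), sq_nonneg α]

end Pool.OG
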