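import Pool.Agent.H20.OG.Pell

/-!
# Row PEL of the board `og`, from `pell_seq`
-/

namespace Pool.OG

theorem pell (A B C : ℤ) (hA : 0 < A) (hC : 0 < C) (θ : ℝ) (hirr : Irrational θ) (hθ : θ < 0)
    (hroot : A * θ ^ 2 + B * θ + C = 0) (hbig : 0 < 2 * A * θ + B) :
    ∃ (a b : ℕ → ℤ) (lam K : ℝ), 1 < lam ∧ (∀ k, 0 < b k) ∧ (∀ k, 0 < a k - θ * b k) ∧
      (∀ k, A * a k ^ 2 + B * a k * b k + C * b k ^ 2 = C) ∧
      (∀ k, (b k : ℝ) ≤ lam * b (k + 1)) ∧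
      (∀ k, a k - θ * b k = lam * (a (k + 1) - θ * b (k + 1))) ∧
      (∀ k, b k * (a k - θ * b k) ≤ K) ∧
      Filter.Tendsto (fun k => (b k : ℝ)) Filter.atTop Filter.atTop := by
  have hA' : (0 : ℝ) < A := by exact_mod_cast hA
  have hB : 0 ≤ B := by
    have h1 : (0 : ℝ) < B := by nlinarith
    exact_mod_cast h1.le
  obtain ⟨l, a, b, hl, hb, hmon, htend, hform, hpos, hstep, hbd⟩ :=
    Pool.Agent.H20.OG.pell_seq A B C hA hB hC θ hroot hbig hirr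
  refine ⟨a, b, l, C / (2 * (A : ℝ) * θ + B), hl, hb, hpos, fun k => ?_, fun k => ?_,
    fun k => (hstep k).symm, fun k => ?_, htend⟩
  · have h1 := hform k
    rw [← mul_assoc] at h1
    exact h1
  · have h1 : (b k : ℝ) ≤ b (k + 1) := by exact_mod_cast hmon (Nat.le_succ k)
    have h2 : (0 : ℝ) < b (k + 1) := by exact_mod_cast hb (k + 1)
    nlinarith
  · rw [mul_comm]; exact hbd k

end Pool.OG
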