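import Mathlib
import Pool.Agent.H19.OG.Defs
import Pool.Agent.H19.OG.Bas
import Pool.Agent.H19.OG.Ray
import Pool.Agent.H20.OG.WID
import Pool.Agent.H23.OG.F6
import Pool.Agent.H22.OG.F7

/-!
Row FIN: the end of the proof, from the coefficient bound (row COF) and the curves of small
degree (row S5).
-/

namespace Pool.OG

open Filter

variable {X : Data}

/-- an integral linear form, evaluated at an integral class, is an integer -/
theorem lin_integer {n : ℕ} (c : Fin n → ℤ) (D : Fin n → ℤ) : ∃ m : ℤ, lin c (re D) = m :=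
  ⟨∑ i, c i * D i, by simp [lin, re]⟩

/-- The decomposition of the classes of the plane of a ray. -/
theorem ray_re (H G : Fin X.n → ℤ) (τ : ℝ) (a b : ℤ) :
    re (a • H - b • G) = (a : ℝ) • (re H - τ • re G) + (a * τ - b) • re G := by
  rw [re_sub, re_smul, re_smul]
  ext i
  simp only [Pi.add_apply, Pi.sub_apply, Pi.smul_apply, smul_eq_mul]
  ring

/-- Positive combinations of the boundary class and the nef class are ample. -/
theorem ray_ample (hP : Pos X) {H G : Fin X.n → ℤ} {τ : ℝ} (hr : Ray X H G τ) {a b : ℤ}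
    (ha : 0 < a) (hb : (b : ℝ) < a * τ) : X.Ample (a • H - b • G) := by
  rw [hP.kleiman, ray_re H G τ]
  have ha' : (0 : ℝ) < a := by exact_mod_cast ha
  have hη : 0 < (a : ℝ) * τ - b := by linarith
  have hτ := hr.pos
  set ε : ℝ := min a ((a * τ - b) / τ) with hε
  have hε0 : 0 < ε := lt_min ha' (div_pos hη hτ)
  have h1 : ε ≤ a := min_le_left _ _
  have h2 : ε * τ ≤ a * τ - b := by
    rw [← le_div_iff₀ hτ]; exact min_le_right _ _
  have h3 : (a : ℝ) • (re H - τ • re G) + (a * τ - b) • re G =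
      ε • re H + ((a - ε) • (re H - τ • re G) + (a * τ - b - ε * τ) • re G) := by
    ext i
    simp only [Pi.add_apply, Pi.sub_apply, Pi.smul_apply, smul_eq_mul]
    ring
  rw [h3]
  exact int_add (int_smul hε0 (ample_int hP hr.ample))
    (nef_add (nef_smul (by linarith) hr.mem) (nef_smul (by linarith) hr.nef))

/-- The boundary class of a ray has nonzero degree on every curve. -/
theorem ray_deg (hP : Pos X) {H G : Fin X.n → ℤ} {τ : ℝ} (hr : Ray X H G τ) (C : X.Cv) :
    lin (X.dg C) (re H - τ • re G) ≠ 0 := by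
  intro hC
  obtain ⟨h, hh⟩ := lin_integer (X.dg C) H
  obtain ⟨g, hg⟩ := lin_integer (X.dg C) G
  have hpos := hP.ample_deg H hr.ample C
  rw [lin_sub, lin_smul, hh, hg] at hC
  rw [hh] at hpos
  have hg0 : (g : ℝ) ≠ 0 := by
    intro h0
    rw [h0] at hC
    simp at hC
    rw [hC] at hpos
    simp at hpos
  apply hr.irr
  refine ⟨(h : ℚ) / g, ?_⟩
  push_cast
  rw [div_eq_iff hg0]
  linarith

/-- The cube of a class of the plane of a ray. -/
theorem ray_cube (hP : Pos X) {H G : Fin X.n → ℤ} {τ : ℝ} (hr : Ray X H G τ) (a b : ℤ) :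
    tri X.t (re (a • H - b • G)) (re (a • H - b • G)) (re (a • H - b • G)) =
      3 * (a : ℝ) ^ 2 * (a * τ - b) *
          tri X.t (re H - τ • re G) (re H - τ • re G) (re G) +
        3 * a * (a * τ - b) ^ 2 * tri X.t (re H - τ • re G) (re G) (re G) +
        (a * τ - b) ^ 3 * tri X.t (re G) (re G) (re G) := by
  rw [ray_re H G τ]
  set M := re H - τ • re G with hM
  set N := re G with hN
  have hc : tri X.t M M M = 0 := hr.cube
  simp only [tri_add1, tri_add2, tri_add3, tri_smul1, tri_smul2, tri_smul3]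
  have e1 : tri X.t M N M = tri X.t M M N := tri_symm2 hP _ _ _
  have e2 : tri X.t N M M = tri X.t M M N := by rw [tri_symm1 hP, e1]
  have e3 : tri X.t N M N = tri X.t M N N := tri_symm1 hP _ _ _
  have e4 : tri X.t N N M = tri X.t M N N := by rw [tri_symm2 hP, e3]
  rw [e1, e2, e3, e4, hc]
  ring

/-- `c2` of a class of the plane of a ray. -/
theorem ray_c2 {H G : Fin X.n → ℤ} {τ : ℝ} (a b : ℤ) :
    lin X.c2 (re (a • H - b • G)) =
      a * lin X.c2 (re H - τ • re G) + (a * τ - b) * lin X.c2 (re G) := by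
  rw [ray_re H G τ, lin_add, lin_smul, lin_smul]

/-- ROW FIN, from COF and S5. -/
theorem chain_of (hX : Facts X) (hR : ¬ X.RC)
    (hcof : ∀ (D : Fin X.n → ℤ) (_ : X.Ample D) (E : X.Pr →₀ ℚ) (_ : Eff X E D) (p : X.Pr),
      (E p : ℝ) ^ 3 ≤ tri X.t (re D) (re D) (re D))
    (hS5 : ∀ (V : Set X.Pt) (_ : VG X V) (D : Fin X.n → ℤ) (_ : X.Ample D) (A T R : ℝ)
      (_ : 0 ≤ A) (_ : 0 ≤ R) (_ : ∀ E, Eff X E D → ∀ p, (E p : ℝ) ≤ A)
      (_ : 3 * (T + 1) ^ 2 < lin X.c2 (re D) / 12) (_ : A < T)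
      (_ : tri X.t (re D) (re D) (re D) < R * (T - A) ^ 2),
      ∀ x ∈ V, ∃ C, 0 < X.mq C x ∧ lin (X.dg C) (re D) ≤ R * X.mq C x)
    {H G : Fin X.n → ℤ} {τ : ℝ} (hr : Ray X H G τ)
    (a b : ℕ → ℤ) (lam K : ℝ) (hlam : 1 ≤ lam) (hK : 0 < K) (ha : ∀ k, 0 < a k)
    (hb : ∀ k, b k < a k * τ) (hab : ∀ k, a k * (a k * τ - b k) ≤ K)
    (hmon : ∀ k, (a k : ℝ) ≤ lam * a (k + 1))
    (hmon' : ∀ k, a k * τ - b k ≤ lam * (a (k + 1) * τ - b (k + 1)))
    (hlim : Filter.Tendsto (fun k => (a k : ℝ)) Filter.atTop Filter.atTop) : False := by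
  have hP := hX.pos
  obtain ⟨V, hV⟩ := hX.vg
  have ha0 : ∀ k, (0 : ℝ) < a k := fun k => by exact_mod_cast ha k
  have ha1 : ∀ k, (1 : ℝ) ≤ a k := fun k => by exact_mod_cast ha k
  have hη0 : ∀ k, 0 < a k * τ - b k := fun k => by have := hb k; linarith
  have hηK : ∀ k, a k * τ - b k ≤ K := fun k => by
    have h1 := hab k
    have h2 := hη0 k
    have h3 := ha1 k
    nlinarith
  have hamp : ∀ k, X.Ample (a k • H - b k • G) := fun k => ray_ample hP hr (ha k) (hb k)
  have hG3 : 0 ≤ tri X.t (re G) (re G) (re G) := hP.nef_mul _ hr.nef _ hr.nef _ hr.nef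
  have hMG : 0 ≤ tri X.t (re H - τ • re G) (re G) (re G) :=
    hP.nef_mul _ hr.mem _ hr.nef _ hr.nef
  have hMMG := hr.sq
  have hcG : 0 ≤ lin X.c2 (re G) := c2_nonneg hP hr.nef
  set m1 := tri X.t (re H - τ • re G) (re H - τ • re G) (re G) with hm1
  set m2 := tri X.t (re H - τ • re G) (re G) (re G) with hm2
  set m3 := tri X.t (re G) (re G) (re G) with hm3
  set c := lin X.c2 (re H - τ • re G) with hc
  have hc0 : 0 < c := hr.c2
  obtain ⟨q, hq⟩ : ∃ q : ℝ, q = 3 * K * m1 + 3 * K ^ 2 * m2 + K ^ 3 * m3 := ⟨_, rfl⟩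
  have hq0 : 0 < q := by
    rw [hq]
    have h1 : 0 < 3 * K * m1 := by positivity
    have h2 : 0 ≤ 3 * K ^ 2 * m2 := by positivity
    have h3 : 0 ≤ K ^ 3 * m3 := by positivity
    linarith
  have hcube : ∀ k, tri X.t (re (a k • H - b k • G)) (re (a k • H - b k • G))
      (re (a k • H - b k • G)) ≤ q * a k := by
    intro k
    rw [ray_cube hP hr, hq]
    set e := (a k : ℝ) * τ - b k with he
    have h1 := hab k
    have h2 := hη0 k
    have h3 := hηK k
    have h4 := ha1 k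
    have h5 := ha0 k
    have t1 : 3 * (a k : ℝ) ^ 2 * e * m1 ≤ 3 * K * m1 * a k := by
      have : (a k : ℝ) * e * (a k * m1) ≤ K * (a k * m1) :=
        mul_le_mul_of_nonneg_right h1 (by positivity)
      nlinarith
    have t2 : 3 * (a k : ℝ) * e ^ 2 * m2 ≤ 3 * K ^ 2 * m2 * a k := by
      have h6 : e ^ 2 ≤ K ^ 2 := by nlinarith
      have : e ^ 2 * (a k * m2) ≤ K ^ 2 * (a k * m2) :=
        mul_le_mul_of_nonneg_right h6 (by positivity)
      nlinarith
    have t3 : e ^ 3 * m3 ≤ K ^ 3 * m3 * a k := by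
      have h6 : e ^ 3 ≤ K ^ 3 := pow_le_pow_left₀ h2.le h3 3
      have h7 : e ^ 3 * m3 ≤ K ^ 3 * m3 := mul_le_mul_of_nonneg_right h6 hG3
      have h8 : 0 ≤ K ^ 3 * m3 := by positivity
      nlinarith
    linarith
  have hc2 : ∀ k, c * a k ≤ lin X.c2 (re (a k • H - b k • G)) := by
    intro k
    rw [ray_c2 (τ := τ)]
    have h1 := mul_nonneg (hη0 k).le hcG
    linarith
  -- the coefficient bound
  obtain ⟨A, hA⟩ : ∃ A : ℕ → ℝ, ∀ k, 0 ≤ A k ∧ A k ^ 3 = q * a k := by
    refine ⟨fun k => (q * a k) ^ ((1 : ℝ) / 3), fun k => ⟨?_, ?_⟩⟩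
    · have := ha0 k
      positivity
    · have h1 : 0 ≤ q * a k := by have := ha0 k; positivity
      rw [← Real.rpow_natCast, ← Real.rpow_mul h1]
      norm_num
  have hcoef : ∀ k E, Eff X E (a k • H - b k • G) → ∀ p, (E p : ℝ) ≤ A k := by
    intro k E hE p
    have h1 := (hcof _ (hamp k) E hE p).trans (hcube k)
    rw [← (hA k).2] at h1
    exact le_of_pow_le_pow_left₀ (by norm_num) (hA k).1 h1
  have hAlim : Tendsto A atTop atTop := by
    rw [tendsto_atTop]
    intro B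
    have h1 := (tendsto_atTop.1 (hlim.const_mul_atTop hq0)) (|B| ^ 3)
    filter_upwards [h1] with k hk
    rw [← (hA k).2] at hk
    exact (le_abs_self B).trans (le_of_pow_le_pow_left₀ (by norm_num) (hA k).1 hk)
  obtain ⟨C₃, hC₃⟩ : ∃ C₃ : ℝ, C₃ = 197 * q / c := ⟨_, rfl⟩
  have hC₃0 : 0 < C₃ := by rw [hC₃]; positivity
  obtain ⟨N, hN⟩ := (hAlim.eventually_gt_atTop
    (784 * q / c + 2 * (lam * C₃) + 2)).exists_forall_of_atTop
  have hAbig : ∀ k, N ≤ k → 784 * q < c * A k ∧ 2 * (lam * C₃) + 1 ≤ A k ∧ 1 ≤ A k := by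
    intro k hk
    have h1 := hN k hk
    have h2 : 0 < 784 * q / c := by positivity
    have h3 : 0 < 2 * (lam * C₃) := by positivity
    refine ⟨?_, by linarith, by linarith⟩
    have h4 : 784 * q / c < A k := by linarith
    rw [div_lt_iff₀ hc0] at h4
    linarith
  have hgrow : ∀ k, N ≤ k → 784 * A k ^ 2 < c * a k := by
    intro k hk
    obtain ⟨h1, h2, h3⟩ := hAbig k hk
    have h4 := (hA k).2
    have h5 : 784 * q * A k ^ 2 < c * A k * A k ^ 2 :=
      mul_lt_mul_of_pos_right h1 (by positivity)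
    have h6 : c * A k * A k ^ 2 = c * a k * q := by
      calc c * A k * A k ^ 2 = c * A k ^ 3 := by ring
        _ = c * a k * q := by rw [h4]; ring
    rw [h6] at h5
    have h7 : (784 * A k ^ 2) * q < (c * a k) * q := by linarith
    exact lt_of_mul_lt_mul_right h7 hq0.le
  refine step7 hX V hV (re H - τ • re G) (fun k => a k • H - b k • G) (fun k => (a k : ℝ))
    lam C₃ N hamp hlam hC₃0 hlim ?_ ?_ hr.mem (ray_deg hP hr) ?_ ?_
  · intro k
    have h1 : lam • re (a (k + 1) • H - b (k + 1) • G) - re (a k • H - b k • G) =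
        (lam * a (k + 1) - a k) • (re H - τ • re G) +
          (lam * (a (k + 1) * τ - b (k + 1)) - (a k * τ - b k)) • re G := by
      rw [ray_re H G τ, ray_re H G τ]
      ext i
      simp only [Pi.add_apply, Pi.sub_apply, Pi.smul_apply, smul_eq_mul]
      ring
    show lam • re (a (k + 1) • H - b (k + 1) • G) - re (a k • H - b k • G) ∈ Nef X
    rw [h1]
    exact nef_add (nef_smul (by have := hmon k; linarith) hr.mem)
      (nef_smul (by have := hmon' k; linarith) hr.nef)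
  · intro k
    have h1 : re (a k • H - b k • G) - (a k : ℝ) • (re H - τ • re G) =
        (a k * τ - b k) • re G := by
      rw [ray_re H G τ]; abel
    show re (a k • H - b k • G) - (a k : ℝ) • (re H - τ • re G) ∈ Nef X
    rw [h1]
    exact nef_smul (hη0 k).le hr.nef
  · intro k hk
    obtain ⟨h1, h2, h3⟩ := hAbig k hk
    have h4 := hgrow k hk
    obtain ⟨s, hs⟩ : ∃ s : ℝ, s = Real.sqrt (c * a k / 49) := ⟨_, rfl⟩
    have hca : 0 < c * a k := mul_pos hc0 (ha0 k)
    have hs0 : 0 ≤ s := by rw [hs]; exact Real.sqrt_nonneg _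
    have hs2 : s ^ 2 = c * a k / 49 := by rw [hs, Real.sq_sqrt (by positivity)]
    have hsA : 4 * A k < s := by
      apply lt_of_pow_lt_pow_left₀ 2 hs0
      rw [hs2, lt_div_iff₀ (by norm_num)]
      nlinarith
    have hT : s / 2 ≤ s - 1 - A k := by linarith
    refine hS5 V hV _ (hamp k) (A k) (s - 1) C₃ (hA k).1 hC₃0.le (hcoef k) ?_ (by linarith) ?_
    · have := hc2 k
      rw [sub_add_cancel, hs2]
      linarith
    · have h5 : (s / 2) ^ 2 ≤ (s - 1 - A k) ^ 2 :=
        pow_le_pow_left₀ (by linarith) hT 2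
      have h6 : C₃ * (s / 2) ^ 2 ≤ C₃ * (s - 1 - A k) ^ 2 :=
        mul_le_mul_of_nonneg_left h5 hC₃0.le
      refine lt_of_le_of_lt (hcube k) (lt_of_lt_of_le ?_ h6)
      rw [div_pow, hs2, hC₃]
      have h7 : 197 * q / c * (c * a k / 49 / 2 ^ 2) = 197 / 196 * (q * a k) := by
        field_simp
        ring
      rw [h7]
      have := mul_pos hq0 (ha0 k)
      linarith
  · intro k hk x hx D hD hDd
    obtain ⟨h1, h2, h3⟩ := hAbig k hk
    have h4 := hgrow k hk
    apply step6 hX hR V hV _ (hamp k) (A k) (lam * C₃) (hcoef k) x hx ?_ D hD hDd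
    by_contra hcon
    push Not at hcon
    have hlC : 0 < lam * C₃ := by positivity
    have hw := width hX _ (hamp k) x (A k + 2 * (lam * C₃))
      (by have := (hA k).1; positivity) hcon
    have h5 := hc2 k
    have h6 : (A k + 2 * (lam * C₃) + 1) ^ 2 ≤ (2 * A k) ^ 2 :=
      pow_le_pow_left₀ (by linarith) (by linarith) 2
    nlinarith

end Pool.OG
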