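import Mathlib

/-!
# Lattice points in a convex body in three-space

`card (S) ≤ vol (Δ) + 3 (μ + 1) ^ 2` for a finite set `S` of integer points of a compact convex
set `Δ` contained in the cube `[0, μ] ^ 3`.
-/

open MeasureTheory Set

namespace Pool.Agent.H20.OG

/-- thickening of a set in `ℝ × Y` by a unit segment in the direction of the first coordinate. -/
def thick {Y : Type*} (P : Set (ℝ × Y)) : Set (ℝ × Y) :=
  (fun q : (ℝ × Y) × ℝ => (q.1.1 + q.2, q.1.2)) '' (P ×ˢ Icc (0 : ℝ) 1)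

theorem mem_thick {Y : Type*} {P : Set (ℝ × Y)} {p : ℝ × Y} :
    p ∈ thick P ↔ ∃ u ∈ Icc (0 : ℝ) 1, (p.1 - u, p.2) ∈ P := by
  constructor
  · rintro ⟨⟨⟨x, y⟩, u⟩, ⟨h1, h2⟩, rfl⟩
    exact ⟨u, h2, by simpa using h1⟩
  · rintro ⟨u, hu, h⟩
    exact ⟨((p.1 - u, p.2), u), ⟨h, hu⟩, by simp⟩

theorem interval_thick {A : Set ℝ} (hA : Convex ℝ A) (hb : Bornology.IsBounded A) :
    volume {x : ℝ | ∃ u ∈ Icc (0 : ℝ) 1, x - u ∈ A} ≤ volume A + 1 := by
  rcases A.eq_empty_or_nonempty with rfl | hne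
  · have : {x : ℝ | ∃ u ∈ Icc (0 : ℝ) 1, x - u ∈ (∅ : Set ℝ)} = ∅ := by
      ext x; simp
    rw [this]; simp
  have hbb := hb.bddBelow
  have hba := hb.bddAbove
  have h1 : Ioo (sInf A) (sSup A) ⊆ A := by
    intro x hx
    obtain ⟨a, ha, hax⟩ := exists_lt_of_csInf_lt hne hx.1
    obtain ⟨b, hb', hxb⟩ := exists_lt_of_lt_csSup hne hx.2
    exact hA.ordConnected.out ha hb' ⟨hax.le, hxb.le⟩
  have h2 : {x : ℝ | ∃ u ∈ Icc (0 : ℝ) 1, x - u ∈ A} ⊆ Icc (sInf A) (sSup A + 1) := by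
    rintro x ⟨u, hu, hx⟩
    have := csInf_le hbb hx
    have := le_csSup hba hx
    have h3 := hu.1
    have h4 := hu.2
    constructor <;> linarith
  have h3 : sInf A ≤ sSup A := csInf_le_csSup hne hbb hba
  calc volume {x : ℝ | ∃ u ∈ Icc (0 : ℝ) 1, x - u ∈ A}
      ≤ volume (Icc (sInf A) (sSup A + 1)) := measure_mono h2
    _ = ENNReal.ofReal (sSup A - sInf A) + 1 := by
        rw [Real.volume_Icc, show sSup A + 1 - sInf A = (sSup A - sInf A) + 1 by ring,
          ENNReal.ofReal_add (by linarith) zero_le_one, ENNReal.ofReal_one]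
    _ ≤ volume A + 1 := by
        gcongr
        rw [← Real.volume_Ioo]
        exact measure_mono h1

theorem volume_thick {P : Set (ℝ × (ℝ × ℝ))} (hc : Convex ℝ P) (hk : IsCompact P)
    {B : Set (ℝ × ℝ)} (hB : MeasurableSet B) (hPB : ∀ p ∈ P, p.2 ∈ B) :
    volume (thick P) ≤ volume P + volume B := by
  have hk2 : IsCompact (thick P) := by
    refine (hk.prod isCompact_Icc).image ?_
    fun_prop
  have e1 : volume (thick P) = ∫⁻ y : ℝ × ℝ, volume ((fun x : ℝ => (x, y)) ⁻¹' thick P) := by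
    rw [Measure.volume_eq_prod]
    exact Measure.prod_apply_symm hk2.measurableSet
  have e2 : volume P = ∫⁻ y : ℝ × ℝ, volume ((fun x : ℝ => (x, y)) ⁻¹' P) := by
    rw [Measure.volume_eq_prod]
    exact Measure.prod_apply_symm hk.measurableSet
  have e3 : volume B = ∫⁻ y : ℝ × ℝ, B.indicator 1 y := by
    rw [lintegral_indicator_one hB]
  rw [e1, e2, e3, ← lintegral_add_right _ (measurable_one.indicator hB)]
  refine lintegral_mono fun y => ?_
  by_cases hy : y ∈ B
  · have h := interval_thick (A := (fun x : ℝ => (x, y)) ⁻¹' P) ?_ ?_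
    · rw [indicator_of_mem hy]
      refine le_trans (measure_mono ?_) h
      intro x hx
      have := mem_thick.1 (show (x, y) ∈ thick P from hx)
      simpa using this
    · intro a ha b hb s t hs ht hst
      have := hc ha hb hs ht hst
      simp only [mem_preimage] at ha hb ⊢
      have e : s • (a, y) + t • (b, y) = (s • a + t • b, y) := by
        ext
        · simp
        · simp only [Prod.smul_mk, Prod.mk_add_mk, smul_eq_mul, Prod.fst_add, Prod.smul_fst]
          rw [← add_mul, hst, one_mul]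
        · simp only [Prod.smul_mk, Prod.mk_add_mk, smul_eq_mul, Prod.snd_add, Prod.smul_snd]
          rw [← add_mul, hst, one_mul]
      rw [← e]
      exact this
    · have : (fun x : ℝ => (x, y)) ⁻¹' P ⊆ Prod.fst '' P := by
        intro x hx
        exact ⟨(x, y), hx, rfl⟩
      exact (hk.image continuous_fst).isBounded.subset this
  · have : (fun x : ℝ => (x, y)) ⁻¹' thick P = ∅ := by
      ext x
      simp only [mem_preimage, mem_empty_iff_false, iff_false]
      intro hx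
      obtain ⟨u, _, h⟩ := mem_thick.1 hx
      exact hy (hPB _ h)
    rw [this]
    simp

/-- the cyclic rotation of the coordinates. -/
def rot : ℝ × (ℝ × ℝ) → ℝ × (ℝ × ℝ) := fun p => (p.2.1, (p.2.2, p.1))

theorem continuous_rot : Continuous rot := by
  unfold rot
  fun_prop

theorem rot_mp : MeasurePreserving rot volume volume := by
  have h1 : MeasurePreserving (Prod.swap : ℝ × (ℝ × ℝ) → (ℝ × ℝ) × ℝ) volume volume :=
    Measure.measurePreserving_swap
  have h2 : MeasurePreserving (MeasurableEquiv.prodAssoc : (ℝ × ℝ) × ℝ ≃ᵐ ℝ × (ℝ × ℝ))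
      volume volume := volume_preserving_prodAssoc
  exact h2.comp h1

theorem volume_rot {P : Set (ℝ × (ℝ × ℝ))} (hk : IsCompact P) :
    volume (rot '' P) = volume P := by
  have h := rot_mp.measure_preimage (s := rot '' P)
    ((hk.image continuous_rot).measurableSet.nullMeasurableSet)
  rw [← h]
  congr 1
  ext p
  simp only [mem_preimage, mem_image]
  constructor
  · rintro ⟨q, hq, he⟩
    have : q = p := by
      rcases q with ⟨a, b, c⟩
      rcases p with ⟨a', b', c'⟩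
      simp only [rot, Prod.mk.injEq] at he ⊢
      tauto
    rwa [← this]
  · intro hp
    exact ⟨p, hp, rfl⟩

theorem convex_thick {P : Set (ℝ × (ℝ × ℝ))} (hc : Convex ℝ P) : Convex ℝ (thick P) := by
  rintro p hp q hq s t hs ht hst
  obtain ⟨u, hu, hp⟩ := mem_thick.1 hp
  obtain ⟨v, hv, hq⟩ := mem_thick.1 hq
  refine mem_thick.2 ⟨s * u + t * v, ?_, ?_⟩
  · exact (convex_Icc (0 : ℝ) 1) hu hv hs ht hst
  · have := hc hp hq hs ht hst
    convert this using 1
    ext
    · simp only [Prod.fst_add, Prod.smul_fst, smul_eq_mul]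
      ring
    · simp
    · simp

theorem compact_thick {P : Set (ℝ × (ℝ × ℝ))} (hk : IsCompact P) : IsCompact (thick P) := by
  refine (hk.prod isCompact_Icc).image ?_
  fun_prop

theorem convex_rot {P : Set (ℝ × (ℝ × ℝ))} (hc : Convex ℝ P) : Convex ℝ (rot '' P) := by
  rintro _ ⟨p, hp, rfl⟩ _ ⟨q, hq, rfl⟩ s t hs ht hst
  exact ⟨s • p + t • q, hc hp hq hs ht hst, by ext <;> simp [rot]⟩

theorem mem_rot {P : Set (ℝ × (ℝ × ℝ))} {x y z : ℝ} :
    (x, (y, z)) ∈ rot '' P ↔ (z, (x, y)) ∈ P := by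
  constructor
  · rintro ⟨⟨a, b, c⟩, h, he⟩
    simp only [rot, Prod.mk.injEq] at he
    obtain ⟨rfl, rfl, rfl⟩ := he
    exact h
  · intro h
    exact ⟨(z, (x, y)), h, rfl⟩

theorem lattice_count {D : Set (ℝ × (ℝ × ℝ))} (hc : Convex ℝ D) (hk : IsCompact D) {μ : ℝ}
    (hμ : 0 ≤ μ) (hbox : ∀ p ∈ D, p.1 ∈ Icc 0 μ ∧ p.2.1 ∈ Icc 0 μ ∧ p.2.2 ∈ Icc 0 μ)
    (S : Finset (ℤ × (ℤ × ℤ)))
    (hS : ∀ s ∈ S, ((s.1 : ℝ), ((s.2.1 : ℝ), (s.2.2 : ℝ))) ∈ D) :
    (S.card : ℝ) ≤ (volume D).toReal + 3 * (μ + 1) ^ 2 := by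
  set P1 := thick D with hP1
  set Q1 := rot '' P1 with hQ1
  set P2 := thick Q1 with hP2
  set Q2 := rot '' P2 with hQ2
  set P3 := thick Q2 with hP3
  set Q3 := rot '' P3 with hQ3
  set B : Set (ℝ × ℝ) := Icc 0 (μ + 1) ×ˢ Icc 0 (μ + 1) with hB
  have hBm : MeasurableSet B := measurableSet_Icc.prod measurableSet_Icc
  have hBv : volume B = ENNReal.ofReal ((μ + 1) ^ 2) := by
    rw [hB, Measure.volume_eq_prod, Measure.prod_prod, Real.volume_Icc, sub_zero,
      ← ENNReal.ofReal_mul (by linarith), sq]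
  have k1 := compact_thick hk
  have k2 := k1.image continuous_rot
  have k3 := compact_thick k2
  have k4 := k3.image continuous_rot
  have k5 := compact_thick k4
  have k6 := k5.image continuous_rot
  have c1 := convex_thick hc
  have c2 := convex_rot c1
  have c3 := convex_thick c2
  have c4 := convex_rot c3
  have i0 : ∀ p ∈ D, p.2 ∈ B := fun p hp => by
    obtain ⟨_, h2, h3⟩ := hbox p hp
    exact ⟨⟨h2.1, by linarith [h2.2]⟩, ⟨h3.1, by linarith [h3.2]⟩⟩
  have i1 : ∀ p ∈ Q1, p.2 ∈ B := by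
    rintro ⟨x, y, z⟩ hp
    have hp' := mem_rot.1 hp
    obtain ⟨u, hu, h⟩ := mem_thick.1 hp'
    obtain ⟨h1, h2, h3⟩ := hbox _ h
    simp only at h1 h2 h3
    refine ⟨⟨h3.1, by linarith [h3.2]⟩, ⟨?_, ?_⟩⟩
    · linarith [h1.1, hu.1]
    · linarith [h1.2, hu.2]
  have i2 : ∀ p ∈ Q2, p.2 ∈ B := by
    rintro ⟨x, y, z⟩ hp
    have hp' := mem_rot.1 hp
    obtain ⟨u, hu, h⟩ := mem_thick.1 hp'
    obtain ⟨v, hv, h'⟩ := mem_thick.1 (mem_rot.1 h)
    obtain ⟨h1, h2, h3⟩ := hbox _ h'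
    simp only at h1 h2 h3
    refine ⟨⟨?_, ?_⟩, ⟨?_, ?_⟩⟩
    · linarith [h1.1, hv.1]
    · linarith [h1.2, hv.2]
    · linarith [h2.1, hu.1]
    · linarith [h2.2, hu.2]
  have v1 := volume_thick hc hk hBm i0
  have v2 := volume_thick c2 k2 hBm i1
  have v3 := volume_thick c4 k4 hBm i2
  rw [volume_rot k1] at v2
  rw [volume_rot k3] at v3
  have v4 : volume Q3 ≤ volume D + ENNReal.ofReal (3 * (μ + 1) ^ 2) := by
    rw [hQ3, volume_rot k5]
    have e : ENNReal.ofReal (3 * (μ + 1) ^ 2) = volume B + volume B + volume B := by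
      rw [hBv, ← ENNReal.ofReal_add (by positivity) (by positivity),
        ← ENNReal.ofReal_add (by positivity) (by positivity)]
      congr 1
      ring
    rw [e]
    calc volume P3 ≤ volume P2 + volume B := v3
      _ ≤ (volume P1 + volume B) + volume B := by gcongr
      _ ≤ ((volume D + volume B) + volume B) + volume B := by gcongr
      _ = volume D + (volume B + volume B + volume B) := by ring
  -- unit cubes
  let cube : ℤ × (ℤ × ℤ) → Set (ℝ × (ℝ × ℝ)) := fun s =>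
    Ico (s.1 : ℝ) (s.1 + 1) ×ˢ (Ico (s.2.1 : ℝ) (s.2.1 + 1) ×ˢ Ico (s.2.2 : ℝ) (s.2.2 + 1))
  have hcm : ∀ s, MeasurableSet (cube s) := fun s =>
    measurableSet_Ico.prod (measurableSet_Ico.prod measurableSet_Ico)
  have hcv : ∀ s, volume (cube s) = 1 := fun s => by
    simp only [cube]
    rw [Measure.volume_eq_prod, Measure.prod_prod, Measure.volume_eq_prod, Measure.prod_prod,
      Real.volume_Ico, Real.volume_Ico, Real.volume_Ico]
    simp
  have hfl : ∀ (n : ℤ) (x : ℝ), x ∈ Ico (n : ℝ) (n + 1) → ⌊x⌋ = n := fun n x hx => by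
    rw [Int.floor_eq_iff]
    exact hx
  have hdis : (S : Set (ℤ × (ℤ × ℤ))).PairwiseDisjoint cube := by
    intro s _ t _ hst
    rw [Function.onFun, Set.disjoint_left]
    rintro p hp hq
    apply hst
    have a1 := (hfl _ _ hp.1).symm.trans (hfl _ _ hq.1)
    have a2 := (hfl _ _ hp.2.1).symm.trans (hfl _ _ hq.2.1)
    have a3 := (hfl _ _ hp.2.2).symm.trans (hfl _ _ hq.2.2)
    exact Prod.ext a1 (Prod.ext a2 a3)
  have hsub : (⋃ s ∈ S, cube s) ⊆ Q3 := by
    intro p hp
    simp only [mem_iUnion] at hp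
    obtain ⟨s, hs, hps⟩ := hp
    rcases p with ⟨x, y, z⟩
    have hx := hps.1
    have hy := hps.2.1
    have hz := hps.2.2
    simp only at hx hy hz
    refine mem_rot.2 (mem_thick.2 ⟨z - s.2.2, ⟨by linarith [hz.1], by linarith [hz.2]⟩, ?_⟩)
    refine mem_rot.2 (mem_thick.2 ⟨y - s.2.1, ⟨by linarith [hy.1], by linarith [hy.2]⟩, ?_⟩)
    refine mem_rot.2 (mem_thick.2 ⟨x - s.1, ⟨by linarith [hx.1], by linarith [hx.2]⟩, ?_⟩)
    have := hS s hs
    simpa using this
  have hcard : (S.card : ENNReal) ≤ volume Q3 := by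
    have h := measure_biUnion_finset (μ := volume) hdis (fun s _ => hcm s)
    have h2 : volume (⋃ s ∈ S, cube s) = S.card := by
      rw [h, Finset.sum_congr rfl fun s _ => hcv s]
      simp
    rw [← h2]
    exact measure_mono hsub
  have hfin : volume D ≠ ⊤ := hk.measure_lt_top.ne
  have h := hcard.trans v4
  have h2 := ENNReal.toReal_mono (by finiteness) h
  rw [ENNReal.toReal_add hfin (by finiteness), ENNReal.toReal_ofReal (by positivity)] at h2
  simpa using h2

end Pool.Agent.H20.OG
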